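import Pool.Agent.N996.BP.Ext2
import Pool.Agent.Y121.AHS.CDefs

/-!
# Polarisations and nondegenerate centres: definitions
-/

open CategoryTheory AlgebraicGeometry

universe u

namespace Pool.Agent.K9h40.FP4

open Pool.Agent.H914 Pool.Agent.H914.VarClass Pool.Agent.H914.VarClass.Obj
  Pool.Agent.H914.WeilCohomology
open Pool.Agent.Y121.AHS Pool.Agent.N996.BP

section

variable (K A : Type) [Field K] [Algebra K ℂ] [Ring A] [Algebra K A]

/-- Families of complex subspaces of the extension of `A` to complex coefficients. -/
abbrev Bigr : Type := ℤ → ℤ → Submodule ℂ (Ext K ℂ A)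

variable {K A}

/-- The element `x` is of type `(p, q)`. -/
def OfType (pq : Bigr K A) (p q : ℤ) (x : Ext K ℂ A) : Prop := x ∈ pq p q

/-- The decomposition `pq` is a Hodge structure with polarisation `ψ`: there are only nonzero
elements of type `(p, q)` if `p` and `q` are between `0` and `d`, the complex conjugation maps the
elements of type `(p, q)` to those of type `(q, p)`, the bilinear form `ψ(x, y)` vanishes for `x` of
type `(p, q)` and `y` of type `(r, s)` unless `(r, s) = (q, p)`, and `i ^ (p - q) ψ(x, x̄)` is a
positive real number for all nonzero `x` of type `(p, q)`. -/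
structure IsPol (h : IsRat K) (d : ℕ) (pq : Bigr K A) (ψ : Bil K A) : Prop where
  range : ∀ p q x, OfType pq p q x → x ≠ 0 → 0 ≤ p ∧ p ≤ d ∧ 0 ≤ q ∧ q ≤ d
  conj : ∀ p q x, OfType pq p q x → OfType pq q p (extConj h x)
  orth : ∀ p q r s x y, OfType pq p q x → OfType pq r s y → r ≠ q ∨ s ≠ p → extBil ψ x y = 0
  pos : ∀ p q x, OfType pq p q x → x ≠ 0 →
    ∃ r : ℝ, 0 < r ∧ Complex.I ^ (p - q) * extBil ψ x (extConj h x) = r

/-- The linear maps from `A` to `A`. -/
abbrev Lin (K A : Type) [Field K] [Ring A] [Algebra K A] : Type := A →ₗ[K] A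

/-- The map `f` is an endomorphism of the Hodge structure. -/
def IsHEnd (pq : Bigr K A) (f : Lin K A) : Prop :=
  ∀ p q x, OfType pq p q x → OfType pq p q (extMap K ℂ f x)

/-- The map `f` belongs to the centre of the algebra of the endomorphisms of the Hodge structure. -/
def IsCentral (pq : Bigr K A) (f : Lin K A) : Prop :=
  IsHEnd pq f ∧ ∀ g : Lin K A, IsHEnd pq g → ∀ c, f (g c) = g (f c)

/-- The map `f` is skew for the form `ψ`. -/
def IsSkew (ψ : Bil K A) (f : Lin K A) : Prop := ∀ c d, ψ (f c) d = -ψ c (f d)

/-- The complex linear map `F` is `(p - q) f` on the elements of type `(p, q)`. -/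
def IsWeighted (pq : Bigr K A) (f : Lin K A) (F : Ext K ℂ A →ₗ[ℂ] Ext K ℂ A) : Prop :=
  ∀ p q x, OfType pq p q x → F x = extSm K ℂ ((p - q : ℤ) : ℂ) (extMap K ℂ f x)

/-- The centre of the algebra of the endomorphisms of the Hodge structure is nondegenerate: zero is
its only element `f` which is skew for `ψ` and for which the sum of all `(p - q) Tr(f | pq p q)`
(the trace of the linear map which is `(p - q) f` on `pq p q`) vanishes. -/
def CentreNd (pq : Bigr K A) (ψ : Bil K A) : Prop :=
  ∀ f : Lin K A, IsCentral pq f → IsSkew ψ f →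
    (∀ F, IsWeighted pq f F → LinearMap.trace ℂ (Ext K ℂ A) F = 0) → f = 0

/-- The Hodge structure has a polarisation `ψ` for which the centre of the algebra of its
endomorphisms is nondegenerate. (It means that the Lie algebra of the Hodge group contains all skew
elements of the centre. It holds if there are no skew elements apart from zero, that is, if the
centre is a product of totally real fields.) -/
def Nondegenerate (h : IsRat K) (d : ℕ) (pq : Bigr K A) : Prop :=
  ∃ ψ, IsPol h d pq ψ ∧ CentreNd pq ψ

/-- The quotients `t n / s n` converge to the natural number `N`. -/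
def QuotientsTendTo (t s : ℕ → ℕ) (N : ℕ) : Prop :=
  Filter.Tendsto (fun n => (t n : ℝ) / s n) Filter.atTop (nhds (N : ℝ))

end

variable {k : Type u} [Field k] {𝒱 : VarClass k} {ops : CycleOps 𝒱}

/-- All Hodge classes on `Z` are absolutely Hodge. -/
def AllAbsolute {T : HodgeTheory ops} (D : Full.Conjugates T) (Z : 𝒱.Obj) : Prop :=
  ∀ j c, IsHodge T Z j c → Full.IsAbsHodge D Z j c

end Pool.Agent.K9h40.FP4
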