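import Pool.Agent.K9h40.FP4.Geo
import Pool.Agent.Y121.AHS.Conv2
import Pool.Agent.K9h40.FP4.Defs

/-!
# The fourth power theorem
-/

set_option linter.unusedSectionVars false
set_option maxHeartbeats 400000

open CategoryTheory AlgebraicGeometry TensorProduct Filter Topology

open scoped ENNReal

universe u

namespace Pool.Agent.K9h40.FP4

open Module
open Pool.Agent.H914 Pool.Agent.H914.VarClass Pool.Agent.H914.VarClass.Obj
  Pool.Agent.H914.WeilCohomology
open Pool.Agent.Y121 Pool.Agent.Y121.AHS Pool.Agent.Y121.AHS.Full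
open Pool.Agent.Y133.Half (pw ClassPred Sys)
open Pool.Agent.Y121.AH (hodgePred)
open Pool.Agent.N996.FP Pool.Agent.N996.BP.Geo Pool.Agent.N996.FP.Geo

variable {k : Type u} [Field k] {𝒱 : VarClass k} {ops : CycleOps 𝒱} {T : AHS.HodgeTheory ops}
  {X : 𝒱.Obj}

/-- The numbers of absolutely Hodge classes on powers. -/
lemma absDim_growth (D : Full.Conjugates T) (X : 𝒱.Obj) [Nontrivial (T.W.H X)] :
    ∃ b : ℕ, ∀ n M : ℕ, Full.absDim D (pw X (2 * (n + M) + 1)) ≤
      b ^ M * Full.absDim D (pw X (2 * n + 1)) := by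
  have hnt : Nontrivial ((toH T).W.H X) := ‹Nontrivial (T.W.H X)›
  have h1 := Sys.isPowers_base (S := AH.absSys (toD D)) (X := X)
    (fun n => AH.abs_nondeg (toD D) (pw X n)) ℂ
  obtain ⟨b, hb⟩ : ∃ b, b = (finrank (baseW (toH T).W ℂ).K ((baseW (toH T).W ℂ).H X)) ^ 2 :=
    ⟨_, rfl⟩
  refine ⟨b, fun n M => ?_⟩
  induction M with
  | zero => rw [pow_zero, one_mul, add_zero]
  | succ M ih =>
    have h2 := h1.le (n + M)
    simp only [← AH.absDim_eq, Full.absDim_eq] at h2
    have h3 : 2 * (n + (M + 1)) + 1 = 2 * (n + M) + 3 := by ring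
    rw [h3]
    rw [← hb] at h2
    refine h2.trans ?_
    rw [pow_succ' b M, mul_assoc]
    exact Nat.mul_le_mul_left _ ih

/-- The conversion of the polarisations. -/
lemma IsPol.toBP {T : AHS.HodgeTheory ops} {X : 𝒱.Obj} {ψ : RForm T.W X}
    (h : IsPol T.rat X.dim (T.pq X) ψ) : Pool.Agent.N996.BP.IsPolarisation T X ψ where
  range := h.range
  conj := h.conj
  orth := h.orth
  pos := h.pos

/-- **The fourth power theorem.** -/
theorem fourth_power (T : AHS.HodgeTheory ops) (D : Full.Conjugates T) (X : 𝒱.Obj)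
    [Nontrivial (T.W.H X)] (hX : Nondegenerate T.rat X.dim (T.pq X))
    (h : AllAbsolute D (pw X 3)) :
    ∃ N : ℕ, QuotientsTendTo (fun n => AHS.hodgeDim T (pw X n))
      (fun n => Full.absDim D (pw X n)) N := by
  obtain ⟨ψ, hψ, hc⟩ := hX
  obtain ⟨M, hM⟩ := geo_fin (T := toH T) hψ.toBP.isPHS ((AH.absSys (toD D)).csys X)
    (fun n => AH.abs_le_hodge (D := toD D) (pw X n))
    (fun f hf hs ht => hc f hf hs fun F hF => ht F hF)
    (by
      intro c hc
      refine ClassPred.sp_ind (Q := hodgePred (toH T)) (q := fun c =>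
        c ∈ ((AH.absSys (toD D)).csys X).C 3) ?_ ?_ ?_ hc
      · intro j x hx
        exact Submodule.subset_span ⟨j, isAbsHodge_iff.2 (h j x hx)⟩
      · exact Submodule.zero_mem _
      · intro a b ha hb; exact Submodule.add_mem _ ha hb)
  obtain ⟨b, hb⟩ := absDim_growth D X
  have hbd : ∀ n, AHS.hodgeDim T (pw X (2 * n + 1)) ≤
      b ^ M * Full.absDim D (pw X (2 * n + 1)) := by
    intro n
    have h1 := hM (2 * n + 1)
    have h2 : finrank (toH T).W.K (((AH.absSys (toD D)).csys X).C (2 * n + 1 + 2 * M)) =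
        Full.absDim D (pw X (2 * (n + M) + 1)) := by
      have h3 : 2 * n + 1 + 2 * M = 2 * (n + M) + 1 := by ring
      rw [h3, ← Full.absDim_eq]
      rfl
    rw [h2] at h1
    exact h1.trans (hb n M)
  obtain ⟨N, h1, h2, -, -, h5, h6⟩ := index_law T D X
  have hfin : N ≠ ⊤ := by
    rintro rfl
    have h7 : Tendsto (fun n => (AHS.hodgeDim T (pw X n) : ℝ≥0∞) / Full.absDim D (pw X n)) atTop
      (𝓝 ⊤) := by
      have h8 := h2
      rw [HasIndex, ENat.toENNReal_top] at h8
      exact h8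
    have h8 := (ENNReal.tendsto_nhds_top_iff_nnreal.1 h7) ((b ^ M : ℕ) : NNReal)
    obtain ⟨n₀, hn₀⟩ := eventually_atTop.1 h8
    have h9 := hn₀ (2 * n₀ + 1) (by omega)
    have h10 := hbd n₀
    have hpos : 0 < Full.absDim D (pw X (2 * n₀ + 1)) := absDim_pos (D := D) (X := X) _
    rw [← not_le] at h9
    apply h9
    rw [ENNReal.div_le_iff (by exact_mod_cast hpos.ne') (ENNReal.natCast_ne_top _)]
    exact_mod_cast h10
  obtain ⟨N, rfl⟩ := ENat.ne_top_iff_exists.1 hfin
  exact ⟨N, AH.real_of_index h2⟩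

end Pool.Agent.K9h40.FP4
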