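import Pool.Agent.K9h40.FP4.Sep
import Pool.Agent.N996.FP.FinT
import Pool.Agent.Y121.AHS.Law

/-!
# The number of the Hodge classes on the powers of a variety
-/

set_option linter.unusedSectionVars false
set_option linter.unusedVariables false
set_option maxHeartbeats 400000

open CategoryTheory AlgebraicGeometry TensorProduct

universe u

namespace Pool.Agent.K9h40.FP4

open Module Matrix ComplexConjugate Pool.Agent.N996.BP Pool.Agent.N996.FP
open Pool.Agent.H914 Pool.Agent.H914.VarClass Pool.Agent.H914.VarClass.Obj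
  Pool.Agent.H914.WeilCohomology
open Pool.Agent.Y133.Half Pool.Agent.Y121.AH
open Pool.Agent.N996.BP.Geo Pool.Agent.N996.FP.Geo

section Mono

variable {ι : Type} [Fintype ι] [DecidableEq ι] {H : HData ι}
  {B : ∀ n : ℕ, Submodule ℚ ((Fin (n + 1) → ι) → ℚ)}

/-- The number of the classes is monotone. -/
lemma finrank_B_mono (hA : RFam H B) (hN : ∀ n, n + 1 ≤ 4 → BB H (Fin (n + 1)) ≤ B n) (n : ℕ) :
    finrank ℚ (B n) ≤ finrank ℚ (B (n + 1)) := by
  have hu : uni ℚ H.D.o (Fin (0 + 1)) ∈ B 0 := hN 0 (by norm_num) (uni_BB _)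
  let f : B n →ₗ[ℚ] B (n + 1) :=
    { toFun := fun a => ⟨rei (ce n 0) (tens a.1 (uni ℚ H.D.o (Fin (0 + 1)))),
        hA.tens n 0 a.1 _ a.2 hu⟩
      map_add' := fun a b => by
        apply Subtype.ext
        funext i
        change (a.1 + b.1) _ * _ = a.1 _ * _ + b.1 _ * _
        rw [Pi.add_apply, add_mul]
      map_smul' := fun c a => by
        apply Subtype.ext
        funext i
        change (c • a.1) _ * _ = c • (a.1 _ * _)
        rw [Pi.smul_apply, smul_eq_mul, smul_eq_mul, mul_assoc] }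
  refine LinearMap.finrank_le_finrank_of_injective (f := f) fun a b hab => ?_
  apply Subtype.ext
  have h1 : rei (ce n 0) (tens a.1 (uni ℚ H.D.o (Fin (0 + 1)))) =
      rei (ce n 0) (tens b.1 (uni ℚ H.D.o (Fin (0 + 1)))) := congrArg Subtype.val hab
  have h2 := congrArg (rei (ce n 0).symm) h1
  rw [rei_rei, rei_rei, Equiv.self_trans_symm] at h2
  funext i
  have h3 : tens a.1 (uni ℚ H.D.o (Fin (0 + 1))) (Sum.elim i fun _ => H.D.o) =
      tens b.1 (uni ℚ H.D.o (Fin (0 + 1))) (Sum.elim i fun _ => H.D.o) :=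
    congrFun h2 (Sum.elim i fun _ => H.D.o)
  rw [tens_elim, tens_elim] at h3
  have h4 : uni ℚ H.D.o (Fin (0 + 1)) (fun _ => H.D.o) = 1 := by simp [uni]
  rwa [h4, mul_one, mul_one] at h3

lemma finrank_B_mono' (hA : RFam H B) (hN : ∀ n, n + 1 ≤ 4 → BB H (Fin (n + 1)) ≤ B n)
    (n m : ℕ) : finrank ℚ (B n) ≤ finrank ℚ (B (n + m)) := by
  induction m with
  | zero => exact le_rfl
  | succ m ih => exact ih.trans (finrank_B_mono hA hN (n + m))

end Mono

variable {k : Type u} [Field k] {𝒱 : VarClass k} {ops : CycleOps 𝒱} {T : HodgeTheory ops}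
  {X Y : 𝒱.Obj} {ψ : LinearMap.BilinForm T.W.K (T.W.H X)}

section Cls

variable {ι : Type} [Fintype ι] [DecidableEq ι] (e : Basis ι T.W.K (T.W.H X))

lemma cls_injective (n : ℕ) : Function.Injective (cls (T := T) e n) := by
  intro a b hab
  have h1 := congrArg (em T.W ℂ) hab
  rw [em_cls, em_cls] at h1
  have h2 := emb_inj e n h1
  funext i
  have h3 : ((a i : ℚ) : ℂ) = ((b i : ℚ) : ℂ) := congrFun h2 i
  exact_mod_cast h3

lemma cls_add' (n : ℕ) (a b : (Fin (n + 1) → ι) → ℚ) :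
    cls (T := T) e n (a + b) = cls e n a + cls e n b := clw_add e n a b

lemma cls_smul' (n : ℕ) (r : ℚ) (a : (Fin (n + 1) → ι) → ℚ) :
    cls (T := T) e n (r • a) = (r : T.W.K) • cls e n a := clw_smul e n r a

/-- Dimensions over the rational numbers and over the field of coefficients. -/
lemma finrank_cls (n : ℕ) {A : Submodule ℚ ((Fin (n + 1) → ι) → ℚ)}
    {V : Submodule T.W.K (T.W.H (pw X n))} (h : ∀ a, a ∈ A ↔ cls e n a ∈ V) :
    finrank ℚ A = finrank T.W.K V := by
  let f : A → V := fun a => ⟨cls e n a.1, (h a.1).1 a.2⟩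
  have hf : Function.Bijective f := by
    constructor
    · intro a b hab
      exact Subtype.ext (cls_injective e n (congrArg Subtype.val hab))
    · rintro ⟨v, hv⟩
      obtain ⟨a, ha⟩ := cls_surj e n v
      refine ⟨⟨a, (h a).2 (by rw [ha]; exact hv)⟩, Subtype.ext ha⟩
  let j : A ≃+ V :=
    { Equiv.ofBijective f hf with
      map_add' := fun a b => Subtype.ext (cls_add' e n a.1 b.1) }
  have h1 := rank_eq_of_equiv_equiv (R := ℚ) (R' := T.W.K) (M := A) (M₁ := V)
    (fun q : ℚ => (q : T.W.K)) j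
    ⟨fun a b hab => by
      have h2 : ((a : ℚ) : T.W.K) = ((b : ℚ) : T.W.K) := hab
      exact_mod_cast h2, fun x => by
      obtain ⟨q, hq⟩ := T.rat x
      exact ⟨q, hq⟩⟩
    (fun r m => Subtype.ext (cls_smul' e n r m.1))
  rw [Module.finrank, h1, Module.finrank]

end Cls

section Nd

variable {ι : Type} [Fintype ι] [DecidableEq ι] {e : Basis ι T.W.K (T.W.H X)} {deg : ι → ℕ}
  {H : HData ι} (hψ : IsPHS (tauT T) (Fx T X) ψ X.dim)
  (hdeg : ∀ j, e j ∈ T.W.gr X (deg j))
  (hH : ∀ t : ℂ, t ≠ 0 → H.l t = mG hψ.int e (fun k => t ^ k))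

lemma skew_fM {r : ℂ} (hr : r ≠ 0) (hQ : cQ H.Qr = r • (fM e ψ)ᵀ) {Y : Matrix ι ι ℂ}
    (hY : Y * cQ H.Qir + cQ H.Qir * Yᵀ = 0) : Yᵀ * fM e ψ = -(fM e ψ * Y) := by
  have hQQ : cQ H.Qr * cQ H.Qir = 1 := by rw [← cQ_mul, H.Qr_Qir, cQ_one]
  have hQQ' : cQ H.Qir * cQ H.Qr = 1 := mul_eq_one_comm.1 hQQ
  have h1 : cQ H.Qr * Y + Yᵀ * cQ H.Qr = 0 := by
    have h2 : cQ H.Qr * (Y * cQ H.Qir + cQ H.Qir * Yᵀ) * cQ H.Qr = 0 := by
      rw [hY, Matrix.mul_zero, Matrix.zero_mul]
    rw [← h2, Matrix.mul_add, Matrix.add_mul]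
    congr 1
    · calc cQ H.Qr * Y = cQ H.Qr * Y * (cQ H.Qir * cQ H.Qr) := by rw [hQQ', Matrix.mul_one]
        _ = _ := by simp only [Matrix.mul_assoc]
    · calc Yᵀ * cQ H.Qr = (cQ H.Qr * cQ H.Qir) * Yᵀ * cQ H.Qr := by rw [hQQ, Matrix.one_mul]
        _ = _ := by simp only [Matrix.mul_assoc]
  rw [hQ, Matrix.smul_mul, Matrix.mul_smul, ← smul_add, smul_eq_zero, or_iff_right hr] at h1
  have h3 := congrArg Matrix.transpose h1
  rw [Matrix.transpose_add, Matrix.transpose_mul, Matrix.transpose_mul,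
    Matrix.transpose_transpose, Matrix.transpose_transpose, Matrix.transpose_zero] at h3
  rw [eq_neg_iff_add_eq_zero]
  exact h3

include hψ hdeg hH in
/-- The condition on the centre in coordinates. -/
lemma ndC_of {r : ℂ} (hr : r ≠ 0) (hQ : cQ H.Qr = r • (fM e ψ)ᵀ)
    (hnd : ∀ f, CenH T X f → (∀ c d, ψ (f c) d = -ψ c (f d)) → TrZ T X f → f = 0) : NdC H := by
  intro x hx hsk htr
  have hf := cenH_lmap hψ hdeg hH hx
  have h3 : ∀ j, lmap e x (e j) = ∑ i, ((x i j : ℚ) : T.W.K) • e i := by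
    intro j
    rw [lmap, Matrix.toLin_self]
    rfl
  have hinj : Function.Injective (algebraMap T.W.K ℂ) := (algebraMap T.W.K ℂ).injective
  have hb1 : ∀ i j, algebraMap T.W.K ℂ (ψ (lmap e x (e i)) (e j)) =
      ∑ m, (cQ x)ᵀ i m * fM e ψ m j := by
    intro i j
    rw [h3, map_sum, LinearMap.sum_apply, map_sum]
    refine Finset.sum_congr rfl fun m _ => ?_
    rw [map_smul, LinearMap.smul_apply, smul_eq_mul, map_mul, map_ratCast]
    rfl
  have hb2 : ∀ i j, algebraMap T.W.K ℂ (ψ (e i) (lmap e x (e j))) =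
      ∑ m, fM e ψ i m * cQ x m j := by
    intro i j
    rw [h3, map_sum, map_sum]
    refine Finset.sum_congr rfl fun m _ => ?_
    rw [map_smul, smul_eq_mul, map_mul, map_ratCast, mul_comm]
    rfl
  have hskew : ∀ c d, ψ (lmap e x c) d = -ψ c (lmap e x d) := by
    have h4 : ψ ∘ₗ lmap e x = -ψ.compl₂ (lmap e x) := by
      refine e.ext fun i => e.ext fun j => ?_
      apply hinj
      have h5 := congrFun (congrFun (skew_fM hr hQ hsk) i) j
      rw [Matrix.neg_apply, Matrix.mul_apply, Matrix.mul_apply, ← hb1, ← hb2, ← map_neg] at h5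
      exact h5
    intro c d
    exact LinearMap.congr_fun₂ h4 c d
  have htz : TrZ T X (lmap e x) := by
    intro F hF
    have h4 : F = (lmap e x).baseChange ℂ ∘ₗ dG hψ.int (fun k => (k : ℂ)) := by
      apply LinearMap.ext
      refine F_ind hψ.int ?_ ?_ ?_
      · intro p q y hy
        rw [LinearMap.comp_apply, dG_apply hψ.int _ hy, map_smul]
        exact hF p q y hy
      · intro a b ha hb; rw [map_add, map_add, ha, hb]
      · rw [map_zero, map_zero]
    have h2 : (ecr e).conj ((lmap e x).baseChange ℂ ∘ₗ dG hψ.int (fun k => (k : ℂ))) =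
        Matrix.toLin' (cQ x * Ng H (RingEquiv.refl ℂ)) := by
      apply LinearMap.ext
      intro v
      obtain ⟨y, rfl⟩ := crd_surj e v
      rw [Matrix.toLin'_apply, LinearEquiv.conj_apply, ← ecr_apply]
      change ecr e ((lmap e x).baseChange ℂ (dG hψ.int (fun k => (k : ℂ))
        ((ecr e).symm (ecr e y)))) = _
      rw [LinearEquiv.symm_apply_apply, ecr_apply, crd_lmap, dG_Ng hψ hH,
        Matrix.mulVec_mulVec, ecr_apply]
    rw [h4, ← LinearMap.trace_conj' _ (ecr e), h2, Matrix.trace_toLin'_eq, htr]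
  have h0 := hnd _ hf hskew htz
  ext i j
  have h4 := h3 j
  rw [h0, LinearMap.zero_apply] at h4
  have h5 := congrArg (fun v => e.repr v i) h4
  beta_reduce at h5
  rw [map_zero, map_sum, Finsupp.finsetSum_apply, Finset.sum_eq_single i] at h5
  · rw [map_smul, Finsupp.smul_apply, Basis.repr_self, Finsupp.single_eq_same, smul_eq_mul,
      mul_one, Finsupp.zero_apply] at h5
    have h6 := congrArg (algebraMap T.W.K ℂ) h5
    rw [map_zero, map_ratCast] at h6
    rw [Matrix.zero_apply]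
    exact_mod_cast h6.symm
  · intro m _ hm
    rw [map_smul, Finsupp.smul_apply, Basis.repr_self, Finsupp.single_eq_of_ne hm.symm, smul_zero]
  · intro h; exact absurd (Finset.mem_univ _) h

end Nd

/-- **The number of the Hodge classes is bounded by the number of the classes of a system on a
higher power**, if the system contains the Hodge classes on the fourth power. -/
theorem geo_fin (hψ : IsPHS (tauT T) (Fx T X) ψ X.dim) (S : CSys T.W X)
    (hle : ∀ n, S.C n ≤ (hodgePred T).sp (pw X n))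
    (hnd : ∀ f, CenH T X f → (∀ c d, ψ (f c) d = -ψ c (f d)) → TrZ T X f → f = 0)
    (h : (hodgePred T).sp (pw X 3) ≤ S.C 3) :
    ∃ M : ℕ, ∀ n, finrank T.W.K ((hodgePred T).sp (pw X n)) ≤
      finrank T.W.K (S.C (n + 2 * M)) := by
  rcases subsingleton_or_nontrivial (T.W.H X) with hs | hs
  · refine ⟨0, fun n => ?_⟩
    have h1 : Subsingleton (T.W.H (pw X n)) := by
      have h2 : finrank T.W.K (T.W.H (pw X n)) = 0 := by
        rw [finrank_pw, finrank_zero_of_subsingleton, zero_pow (Nat.succ_ne_zero n)]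
      exact finrank_zero_iff.1 h2
    have h2 : (hodgePred T).sp (pw X n) = ⊥ := Subsingleton.elim _ _
    rw [h2, finrank_bot]
    exact Nat.zero_le _
  obtain ⟨ι, _, _, e, o, deg, heo, hdeg⟩ := exists_lbasis T.W X
  have ho : (1 : ℂ) ⊗ₜ[T.W.K] e o ∈ Fx T X (0, 0) := by
    rw [heo]
    have h1 := (isHodge_one (T := T) (X := X)).2
    exact h1
  obtain ⟨H, hHo, hHw, hH, r, hr, hQ⟩ := hψ.exists_hdata2 e o ho
  have hsmall : ∀ n, n + 1 ≤ 4 → (hodgePred T).sp (pw X n) ≤ S.C n := fun n hn =>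
    mono_cd (S' := (hodgePred T).sys.csys X) (show n ≤ 3 by omega) h
  have h1X : (hodgePred T).sp (pw X 1) ≤ S.C 1 := hsmall 1 (by omega)
  have hdp : dp T.W X ∈ S.C 1 := h1X (inv_iff.1 inv_dp)
  -- the parities
  let p : ι → Fin 2 := fun j => ⟨deg j % 2, Nat.mod_lt _ two_pos⟩
  have hp : ∀ j, e j ∈ PH T.W X (p j : ℕ) := fun j =>
    PH.of' (by change deg j % 2 = (deg j % 2) % 2; omega) (hdeg j)
  -- the form
  obtain ⟨q, hq, hqQ⟩ : ∃ q : T.W.H (X.prod X), Inv T (X.prod X) q ∧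
      ∀ w, T.W.tr (pw X 1) (wb e 1 w * (show T.W.H (pw X 1) from q)) =
        ((H.Qr (w 0) (w 1) : ℚ) : T.W.K) := exists_q e hH
  have hqS : (show T.W.H (pw X 1) from q) ∈ S.C 1 := h1X (inv_iff.1 hq)
  have hqE : q ∈ PH T.W (X.prod X) 0 := (hodgePred T).sys.even (inv_iff.1 hq)
  have hqQ' : ∀ i j, T.W.tr (X.prod X) (xp T.W (e i) (e j) * q) = ((H.Qr i j : ℚ) : T.W.K) := by
    intro i j
    have h3 := hqQ (Fin.snoc (α := fun _ => ι) (fun _ : Fin (0 + 1) => i) j)
    have h4 : wb e (0 + 1) (Fin.snoc (α := fun _ => ι) (fun _ : Fin (0 + 1) => i) j) =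
        xp T.W (e i) (e j) := by
      rw [wb_snoc]
      have h5 : wb e 0 (fun _ => i) = e i := wb_zero e _
      rw [h5]
      rfl
    have h6 : T.W.tr (pw X 1) (wb e 1 (Fin.snoc (α := fun _ => ι) (fun _ : Fin (0 + 1) => i) j) *
        (show T.W.H (pw X 1) from q)) = T.W.tr (X.prod X) (xp T.W (e i) (e j) * q) := by
      rw [← h4]
      rfl
    rw [← h6, h3]
    rfl
  have hfam : RFam H (fun n => arrc e S n) :=
    { perm := fun n σ a ha => arrc_perm hp hdp n σ ha
      tens := fun n m a b ha hb => arrc_tens e n m ha hb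
      contr := fun n a ha => arrc_contr (fun j => ⟨_, hp j⟩) hqS hqE hqQ' n ha
      le := fun n a ha => (inv_cls e hH n a).1 (inv_iff.2 (hle n ha)) }
  have hN4 : ∀ n, n + 1 ≤ 4 → BB H (Fin (n + 1)) ≤ arrc e S n := fun n hn a ha =>
    hsmall n hn (inv_iff.1 ((inv_cls e hH n a).2 ha))
  have hR : NdC H := ndC_of hψ hdeg hH hr hQ hnd
  obtain ⟨M, hM⟩ := finrank_BB_le' hfam hN4 hR
  refine ⟨M, fun n => ?_⟩
  have e1 : finrank ℚ (BB H (Fin (n + 1))) = finrank T.W.K ((hodgePred T).sp (pw X n)) :=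
    finrank_cls e n fun a => by rw [← inv_iff, inv_cls e hH n a]
  have e2 : finrank ℚ (arrc e S (n + 2 * M)) = finrank T.W.K (S.C (n + 2 * M)) :=
    finrank_cls e _ fun a => Iff.rfl
  rw [← e1, ← e2]
  refine (hM n).trans ?_
  have h5 := finrank_B_mono' hfam hN4 (n + M) M
  rw [show n + 2 * M = n + M + M by ring]
  exact h5

end Pool.Agent.K9h40.FP4
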