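import Pool.Agent.K9h40.FP4.Near

/-!
# The group of the matrices which fix a family of Hodge classes
-/

set_option linter.unusedSectionVars false

namespace Pool.Agent.K9h40.FP4

open Matrix Pool.Agent.N996.BP Pool.Agent.N996.FP ComplexConjugate Topology

variable {ι : Type} [Fintype ι] [DecidableEq ι] {H : HData ι}
  {B : ∀ n : ℕ, Submodule ℚ ((Fin (n + 1) → ι) → ℚ)}

/-- The matrices which fix the family. -/
def PS (B : ∀ n : ℕ, Submodule ℚ ((Fin (n + 1) → ι) → ℚ)) : Submonoid (Matrix ι ι ℂ) where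
  carrier := {q | ∀ (κ : Type) [Fintype κ] [DecidableEq κ], ∀ a ∈ AQ B κ, kp κ q *ᵥ ca a = ca a}
  mul_mem' {x y} hx hy κ _ _ a ha := by
    rw [kp_mul, ← Matrix.mulVec_mulVec, hy κ a ha, hx κ a ha]
  one_mem' κ _ _ a _ := by rw [kp_one, Matrix.one_mulVec]

lemma mem_PS {q : Matrix ι ι ℂ} : q ∈ PS B ↔ ∀ (κ : Type) [Fintype κ] [DecidableEq κ],
    ∀ a ∈ AQ B κ, kp κ q *ᵥ ca a = ca a := Iff.rfl

lemma So_le (hA : RFam H B) : So H ≤ PS B := fun _ hq κ _ _ a ha => hq κ a (hA.leQ ha)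

lemma PS_inv {q q' : Matrix ι ι ℂ} (h : q' * q = 1) (hq : q ∈ PS B) : q' ∈ PS B := by
  intro κ _ _ a ha
  conv_lhs => rw [← hq κ a ha]
  rw [Matrix.mulVec_mulVec, ← kp_mul, h, kp_one, Matrix.one_mulVec]

lemma kp_conj_mulVec {κ : Type} [Fintype κ] [DecidableEq κ] (q : Matrix ι ι ℂ)
    (x : (κ → ι) → ℂ) : kp κ (q.map conj) *ᵥ (fun i => conj (x i)) =
      fun i => conj ((kp κ q *ᵥ x) i) := by
  funext i
  rw [Matrix.mulVec, dotProduct, Matrix.mulVec, dotProduct, map_sum]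
  refine Finset.sum_congr rfl fun j _ => ?_
  rw [map_mul, kp_apply, kp_apply, map_prod]
  rfl

lemma PS_conj {q : Matrix ι ι ℂ} (hq : q ∈ PS B) : q.map conj ∈ PS B := by
  intro κ _ _ a ha
  have h1 := kp_conj_mulVec q (ca a)
  have h2 : (fun i => conj (ca a i)) = ca a := by
    funext i
    rw [ca]
    exact map_ratCast _ _
  rw [h2, hq κ a ha, h2] at h1
  exact h1

lemma PS_l (hA : RFam H B) {t : ℂ} (ht : t ≠ 0) : H.l t ∈ PS B :=
  So_le hA (GG_So (Submonoid.subset_closure (l_mem_gens H ht)))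

section Four

variable (hA : RFam H B) (hN : ∀ n, n + 1 ≤ 4 → BB H (Fin (n + 1)) ≤ B n)

include hA hN in
lemma PS_fixes {p : Matrix ι ι ℂ} (hp : p ∈ PS B) {κ : Type} [Fintype κ] [DecidableEq κ]
    (hκ : Fintype.card κ ≤ 4) : Fixes H p κ := fun a ha => hp κ a (hA.of_small hN hκ ha)

include hA hN in
lemma PS_fixes2 {p : Matrix ι ι ℂ} (hp : p ∈ PS B) : Fixes H p (Unit ⊕ Unit) :=
  PS_fixes hA hN hp (by simp)

include hA hN in
lemma PS_fixes4 {p : Matrix ι ι ℂ} (hp : p ∈ PS B) :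
    Fixes H p ((Unit ⊕ Unit) ⊕ (Unit ⊕ Unit)) :=
  PS_fixes hA hN hp (by simp)

/-- The adjoint in the original coordinates. -/
lemma adj_eq (a : Matrix ι ι ℂ) :
    H.l Complex.I⁻¹ * cQ H.Qir * (cj H a)ᴴ * Sc H = cj H aᴴ := by
  have hSi : H.l Complex.I⁻¹ * cQ H.Qir = Mi H * (Mi H)ᴴ := by
    have e1 : (H.l Complex.I⁻¹ * cQ H.Qir) * Sc H = 1 := by
      have hQQ : cQ H.Qr * cQ H.Qir = 1 := by rw [← cQ_mul, H.Qr_Qir, cQ_one]
      have hQQ' : cQ H.Qir * cQ H.Qr = 1 := mul_eq_one_comm.1 hQQ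
      rw [Sc]
      calc H.l Complex.I⁻¹ * cQ H.Qir * (cQ H.Qr * H.l Complex.I) =
          H.l Complex.I⁻¹ * (cQ H.Qir * cQ H.Qr) * H.l Complex.I := by
            simp only [Matrix.mul_assoc]
        _ = 1 := by rw [hQQ', Matrix.mul_one, H.l_inv' Complex.I_ne_zero]
    have e2 : Sc H * (Mi H * (Mi H)ᴴ) = 1 := by
      rw [Sc_eq]
      calc (Mm H)ᴴ * Mm H * (Mi H * (Mi H)ᴴ) = (Mm H)ᴴ * (Mm H * Mi H) * (Mi H)ᴴ := by
            simp only [Matrix.mul_assoc]
        _ = (Mi H * Mm H)ᴴ := by rw [Mm_Mi, Matrix.mul_one, Matrix.conjTranspose_mul]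
        _ = 1 := by rw [Mi_Mm, Matrix.conjTranspose_one]
    calc H.l Complex.I⁻¹ * cQ H.Qir =
        (H.l Complex.I⁻¹ * cQ H.Qir) * (Sc H * (Mi H * (Mi H)ᴴ)) := by
          rw [e2, Matrix.mul_one]
      _ = ((H.l Complex.I⁻¹ * cQ H.Qir) * Sc H) * (Mi H * (Mi H)ᴴ) := by
          simp only [Matrix.mul_assoc]
      _ = _ := by rw [e1, Matrix.one_mul]
  have e3 : (Mi H)ᴴ * (Mm H)ᴴ = 1 := by
    rw [← Matrix.conjTranspose_mul, Mm_Mi, Matrix.conjTranspose_one]
  rw [hSi, Sc_eq, cj, cj, Matrix.conjTranspose_mul, Matrix.conjTranspose_mul]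
  calc Mi H * (Mi H)ᴴ * ((Mm H)ᴴ * (aᴴ * (Mi H)ᴴ)) * ((Mm H)ᴴ * Mm H) =
      Mi H * ((Mi H)ᴴ * (Mm H)ᴴ) * aᴴ * ((Mi H)ᴴ * (Mm H)ᴴ) * Mm H := by
        simp only [Matrix.mul_assoc]
    _ = _ := by rw [e3, Matrix.mul_one, Matrix.mul_one]

include hA hN in
/-- The group is stable under adjoints. -/
lemma PS_star {q : Matrix ι ι ℂ} (hq : cj H q ∈ PS B) : cj H qᴴ ∈ PS B := by
  obtain ⟨p, hp⟩ : ∃ p, p = cj H q := ⟨_, rfl⟩
  rw [← hp] at hq
  have h2 := PS_fixes2 hA hN hq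
  obtain ⟨p', hp', hpp⟩ := Fixes.inv h2
  have hp'P : p' ∈ PS B := PS_inv hp' hq
  have hQ := fix_Q H h2
  have hcc : ∀ M : Matrix ι ι ℚ, (cQ M).map conj = cQ M := by
    intro M
    ext i j
    rw [Matrix.map_apply, cQ, Matrix.map_apply]
    exact map_ratCast _ _
  have hmm : ∀ M N : Matrix ι ι ℂ, (M * N).map conj = M.map conj * N.map conj := by
    intro M N
    ext i j
    rw [Matrix.map_apply, Matrix.mul_apply, Matrix.mul_apply, map_sum]
    exact Finset.sum_congr rfl fun k _ => map_mul _ _ _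
  have hQc : p.map conj * cQ H.Qir * (p.map conj)ᵀ = cQ H.Qir := by
    have h3 := congrArg (fun M => M.map conj) hQ
    beta_reduce at h3
    rw [hmm, hmm, hcc] at h3
    exact h3
  have hpc : p'.map conj * p.map conj = 1 := by
    rw [← hmm, hp']
    ext i j
    rw [Matrix.map_apply, Matrix.one_apply]
    split_ifs <;> simp
  have h4 : cQ H.Qir * (p.map conj)ᵀ = p'.map conj * cQ H.Qir := by
    calc cQ H.Qir * (p.map conj)ᵀ = (p'.map conj * p.map conj) * (cQ H.Qir * (p.map conj)ᵀ) := by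
          rw [hpc, Matrix.one_mul]
      _ = p'.map conj * (p.map conj * cQ H.Qir * (p.map conj)ᵀ) := by
          simp only [Matrix.mul_assoc]
      _ = _ := by rw [hQc]
  have h5 : pᴴ = (p.map conj)ᵀ := by
    ext i j
    rfl
  have hQQ : cQ H.Qir * cQ H.Qr = 1 := mul_eq_one_comm.1 (by
    rw [← cQ_mul, H.Qr_Qir, cQ_one])
  have h6 : cj H qᴴ = H.l Complex.I⁻¹ * p'.map conj * H.l Complex.I := by
    rw [← adj_eq, ← hp, h5, Sc]
    calc H.l Complex.I⁻¹ * cQ H.Qir * (p.map conj)ᵀ * (cQ H.Qr * H.l Complex.I) =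
        H.l Complex.I⁻¹ * (cQ H.Qir * (p.map conj)ᵀ) * cQ H.Qr * H.l Complex.I := by
          simp only [Matrix.mul_assoc]
      _ = H.l Complex.I⁻¹ * p'.map conj * (cQ H.Qir * cQ H.Qr) * H.l Complex.I := by
          rw [h4]; simp only [Matrix.mul_assoc]
      _ = _ := by rw [hQQ, Matrix.mul_one]
  rw [h6]
  exact (PS B).mul_mem ((PS B).mul_mem (PS_l hA (inv_ne_zero Complex.I_ne_zero))
    (PS_conj hp'P)) (PS_l hA Complex.I_ne_zero)

lemma isClosed_PS : IsClosed {q : Matrix ι ι ℂ | cj H q ∈ PS B} := by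
  have h1 : {q : Matrix ι ι ℂ | cj H q ∈ PS B} = ⋂ (κ : Type) (_ : Fintype κ) (_ : DecidableEq κ)
      (a : (κ → ι) → ℚ) (_ : a ∈ AQ B κ), {q | kp κ (cj H q) *ᵥ ca a = ca a} := by
    ext q
    simp only [Set.mem_iInter]
    exact ⟨fun h κ _ _ a ha => h κ a ha, fun h κ _ _ a ha => h κ _ _ a ha⟩
  rw [h1]
  refine isClosed_iInter fun κ => isClosed_iInter fun _ => isClosed_iInter fun _ =>
    isClosed_iInter fun a => isClosed_iInter fun _ => isClosed_eq ?_ continuous_const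
  have h2 : Continuous fun q : Matrix ι ι ℂ => cj H q :=
    (continuous_const.matrix_mul continuous_id).matrix_mul continuous_const
  have h3 : Continuous fun q : Matrix ι ι ℂ => kp κ (cj H q) := by
    refine continuous_matrix fun i j => ?_
    simp only [kp_apply]
    exact continuous_finsetProd _ fun k _ => h2.matrix_elem (i k) (j k)
  exact h3.matrix_mulVec continuous_const

/-- The exponents of a positive matrix. -/
lemma Lg_log {d : ι → ℝ} : Lg fun i => ((Real.log (d i) : ℝ) : ℂ) where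
  lg i j := by
    rw [← Complex.exp_add, ← sub_eq_add_neg]
    apply Complex.log_exp
    · rw [Complex.sub_im, Complex.ofReal_im, Complex.ofReal_im, sub_zero]
      linarith [Real.pi_pos]
    · rw [Complex.sub_im, Complex.ofReal_im, Complex.ofReal_im, sub_zero]
      exact Real.pi_pos.le
  sk i j h := by
    rw [← Complex.exp_add, ← Complex.ofReal_add, ← Complex.ofReal_exp] at h
    rw [← Complex.ofReal_add]
    have h1 : Real.exp (Real.log (d i) + Real.log (d j)) = 1 := by exact_mod_cast h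
    rw [Real.exp_eq_one_iff] at h1
    rw [h1, Complex.ofReal_zero]

include hA hN in
/-- The polar decomposition in the group. -/
lemma exists_polar (hR : NdC H) {q : Matrix ι ι ℂ} (hq : cj H q ∈ PS B) :
    ∃ u h : Matrix ι ι ℂ, uᴴ * u = 1 ∧ cj H u ∈ PS B ∧ h ∈ Sn H ∧ q = u * h := by
  obtain ⟨p', hp', -⟩ := Fixes.inv (PS_fixes2 hA hN hq)
  have hq'q : cji H p' * q = 1 := by
    rw [← cji_cj H q, ← cji_mul, hp', cji_one]
  have hPH : (qᴴ * q)ᴴ = qᴴ * q := by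
    rw [Matrix.conjTranspose_mul, Matrix.conjTranspose_conjTranspose]
  obtain ⟨U, d, hU, hU', hP⟩ := exists_diag hPH
  have hdpos : ∀ i, 0 < d i := by
    intro i
    have e1 : (q * U)ᴴ * (q * U) = diagonal fun i => (d i : ℂ) := by
      calc (q * U)ᴴ * (q * U) = Uᴴ * (qᴴ * q) * U := by
            rw [Matrix.conjTranspose_mul]; simp only [Matrix.mul_assoc]
        _ = (Uᴴ * U) * (diagonal fun i => (d i : ℂ)) * (Uᴴ * U) := by
            rw [hP]; simp only [Matrix.mul_assoc]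
        _ = _ := by rw [hU, Matrix.one_mul, Matrix.mul_one]
    have e2 : (d i : ℂ) = ∑ j, star ((q * U) j i) * (q * U) j i := by
      have := congrFun (congrFun e1 i) i
      rw [Matrix.diagonal_apply_eq, Matrix.mul_apply] at this
      exact this.symm
    have e3 : d i = ∑ j, Complex.normSq ((q * U) j i) := by
      have : (d i : ℂ) = ((∑ j, Complex.normSq ((q * U) j i) : ℝ) : ℂ) := by
        rw [e2]
        push_cast
        refine Finset.sum_congr rfl fun j _ => ?_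
        rw [Complex.normSq_eq_conj_mul_self]
        rfl
      exact_mod_cast this
    rw [e3]
    refine lt_of_le_of_ne (Finset.sum_nonneg fun j _ => Complex.normSq_nonneg _) fun h0 => ?_
    have e4 := (Finset.sum_eq_zero_iff_of_nonneg
      (fun j _ => Complex.normSq_nonneg ((q * U) j i))).1 h0.symm
    have e5 : (Uᴴ * cji H p') * (q * U) = 1 := by
      calc (Uᴴ * cji H p') * (q * U) = Uᴴ * (cji H p' * q) * U := by
            simp only [Matrix.mul_assoc]
        _ = 1 := by rw [hq'q, Matrix.mul_one, hU]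
    have e6 := congrFun (congrFun e5 i) i
    rw [Matrix.one_apply_eq, Matrix.mul_apply, Finset.sum_eq_zero] at e6
    · exact zero_ne_one e6
    · intro j hj
      rw [Complex.normSq_eq_zero.1 (e4 j hj), mul_zero]
  obtain ⟨c, hc⟩ : ∃ c : ι → ℂ, c = fun i => ((Real.log (d i) : ℝ) : ℂ) := ⟨_, rfl⟩
  have hLg : Lg c := by rw [hc]; exact Lg_log
  have hexc : ex c = fun i => (d i : ℂ) := by
    funext i
    rw [ex, hc]
    rw [← Complex.ofReal_exp, Real.exp_log (hdpos i)]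
  have hfn : fn U (ex c) = qᴴ * q := by rw [hexc, hP]; rfl
  have hmem : cj H (fn U (ex c)) ∈ PS B := by
    rw [hfn, cj_mul]
    exact (PS B).mul_mem (PS_star hA hN hq) hq
  have hs := fn_mem_hn hR hU hLg (PS_fixes2 hA hN hmem) (PS_fixes4 hA hN hmem)
  have hsc : ∀ r : ℂ, fn U (ex fun i => r * c i) ∈ Sn H := by
    intro r
    have h1 := (isGrp_Sn H).exp _ (Submodule.smul_mem _ r hs)
    rw [← fn_smul, exp_fn hU] at h1
    exact h1
  have hreal : ∀ r : ℝ, (fn U (ex fun i => (r : ℂ) * c i))ᴴ = fn U (ex fun i => (r : ℂ) * c i) := by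
    intro r
    rw [fn, Matrix.conjTranspose_mul, Matrix.conjTranspose_mul,
      Matrix.conjTranspose_conjTranspose, Matrix.diagonal_conjTranspose, Matrix.mul_assoc]
    congr 3
    funext i
    rw [Pi.star_apply, ex, hc]
    beta_reduce
    rw [← Complex.ofReal_mul, ← Complex.ofReal_exp]
    exact Complex.conj_ofReal _
  obtain ⟨h, hh⟩ : ∃ h, h = fn U (ex fun i => ((1 / 2 : ℝ) : ℂ) * c i) := ⟨_, rfl⟩
  obtain ⟨h', hh'⟩ : ∃ h', h' = fn U (ex fun i => ((-(1 / 2) : ℝ) : ℂ) * c i) := ⟨_, rfl⟩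
  have h1 : h' * h = 1 := by
    rw [hh, hh', fn_mul hU, ← fn_one hU']
    congr 1
    funext i
    rw [ex, ex, ← Complex.exp_add]
    have : ((-(1 / 2) : ℝ) : ℂ) * c i + ((1 / 2 : ℝ) : ℂ) * c i = 0 := by push_cast; ring
    rw [this, Complex.exp_zero]
  have h2 : h' * (qᴴ * q) * h' = 1 := by
    rw [← hfn, hh', fn_mul hU, fn_mul hU, ← fn_one hU']
    congr 1
    funext i
    rw [ex, ex, ← Complex.exp_add, ← Complex.exp_add]
    have : ((-(1 / 2) : ℝ) : ℂ) * c i + c i + ((-(1 / 2) : ℝ) : ℂ) * c i = 0 := by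
      push_cast; ring
    rw [this, Complex.exp_zero]
  have hh'H : h'ᴴ = h' := by rw [hh', hreal]
  refine ⟨q * h', h, ?_, ?_, ?_, ?_⟩
  · rw [Matrix.conjTranspose_mul, hh'H, ← h2]
    simp only [Matrix.mul_assoc]
  · rw [cj_mul]
    refine (PS B).mul_mem hq (So_le hA ?_)
    rw [← mem_Sn, hh']
    exact hsc _
  · rw [hh]; exact hsc _
  · rw [Matrix.mul_assoc, h1, Matrix.mul_one]

include hA hN in
/-- **Finiteness.** -/
theorem finite_cosets (hR : NdC H) : ∃ F : Finset (Matrix ι ι ℂ),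
    (∀ g ∈ F, gᴴ * g = 1 ∧ cj H g ∈ PS B) ∧
    ∀ q, cj H q ∈ PS B → ∃ g ∈ F, gᴴ * q ∈ Sn H := by
  obtain ⟨ε, hε⟩ : ∃ ε : ℝ, ε = 1 / (Fintype.card ι + 1) := ⟨_, rfl⟩
  have hcard : (0 : ℝ) ≤ Fintype.card ι := Nat.cast_nonneg _
  have hε0 : 0 < ε := by rw [hε]; positivity
  have hε1 : Fintype.card ι * ε < 1 := by
    rw [hε, mul_one_div, div_lt_one (by positivity)]
    linarith
  have hK : IsCompact {u : Matrix ι ι ℂ | uᴴ * u = 1 ∧ cj H u ∈ PS B} :=
    isCompact_unitary.inter_right isClosed_PS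
  obtain ⟨F, hF, hcov⟩ := hK.elim_nhds_subcover
    (fun u => {v : Matrix ι ι ℂ | ∀ i j, ‖(uᴴ * v - 1) i j‖ < ε}) (fun u hu => by
      have hopen : IsOpen {v : Matrix ι ι ℂ | ∀ i j, ‖(uᴴ * v - 1) i j‖ < ε} := by
        have e : {v : Matrix ι ι ℂ | ∀ i j, ‖(uᴴ * v - 1) i j‖ < ε} =
            ⋂ i, ⋂ j, {v : Matrix ι ι ℂ | ‖(uᴴ * v - 1) i j‖ < ε} := by
          ext v
          simp only [Set.mem_iInter]
          rfl
        rw [e]
        refine isOpen_iInter_of_finite fun i => isOpen_iInter_of_finite fun j => ?_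
        refine isOpen_lt ?_ continuous_const
        have h1 : Continuous fun v : Matrix ι ι ℂ => uᴴ * v - 1 :=
          (continuous_const.matrix_mul continuous_id).sub continuous_const
        exact (h1.matrix_elem i j).norm
      refine hopen.mem_nhds fun i j => ?_
      rw [hu.1, sub_self, Matrix.zero_apply, norm_zero]
      exact hε0)
  refine ⟨F, fun g hg => hF g hg, fun q hq => ?_⟩
  obtain ⟨u, h, hu, huP, hh, rfl⟩ := exists_polar hA hN hR hq
  obtain ⟨g, hg, hug⟩ := Set.mem_iUnion₂.1 (hcov ⟨hu, huP⟩)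
  refine ⟨g, hg, ?_⟩
  obtain ⟨hg1, hg2⟩ := hF g hg
  have hg1' : g * gᴴ = 1 := mul_eq_one_comm.1 hg1
  rw [← Matrix.mul_assoc]
  refine (Sn H).mul_mem ?_ hh
  have hw : (gᴴ * u)ᴴ * (gᴴ * u) = 1 := by
    rw [Matrix.conjTranspose_mul, Matrix.conjTranspose_conjTranspose]
    calc uᴴ * g * (gᴴ * u) = uᴴ * (g * gᴴ) * u := by simp only [Matrix.mul_assoc]
      _ = 1 := by rw [hg1', Matrix.mul_one, hu]
  obtain ⟨U, lam, hU, hgu, hlam⟩ := exists_fn_near hw (fun i j => (hug i j).le) hε1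
  obtain ⟨c, hc, hcl⟩ := exists_Lg hlam
  have hwP : cj H (gᴴ * u) ∈ PS B := by
    rw [cj_mul]
    exact (PS B).mul_mem (PS_star hA hN hg2) huP
  rw [← hcl] at hgu
  rw [hgu] at hwP ⊢
  exact fn_mem_Sn hR hU hc (PS_fixes2 hA hN hwP) (PS_fixes4 hA hN hwP)

end Four

end Pool.Agent.K9h40.FP4
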