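import Pool.Agent.N996.FP.Wcw

/-!
# Logarithms of matrices which fix the Hodge classes of degree at most four
-/

set_option linter.unusedSectionVars false

namespace Pool.Agent.K9h40.FP4

open Matrix Pool.Agent.N996.BP Pool.Agent.N996.FP ComplexConjugate ComplexOrder

variable {ι : Type} [Fintype ι] [DecidableEq ι] {H : HData ι}

/-- Exponents which are determined by the exponentials of their sums and differences. -/
structure Lg (c : ι → ℂ) : Prop where
  lg : ∀ i j, Complex.log (Complex.exp (c i) * Complex.exp (-c j)) = c i - c j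
  sk : ∀ i j, Complex.exp (c i) * Complex.exp (c j) = 1 → c i + c j = 0

lemma Lg.inj {c : ι → ℂ} (hc : Lg c) {i j : ι} (h : Complex.exp (c i) = Complex.exp (c j)) :
    c i = c j := by
  have h1 := hc.lg i j
  rw [h, ← Complex.exp_add, add_neg_cancel, Complex.exp_zero, Complex.log_one] at h1
  exact (sub_eq_zero.1 h1.symm)

/-- The exponential. -/
noncomputable def ex (c : ι → ℂ) : ι → ℂ := fun i => Complex.exp (c i)

lemma ex_mul_neg (c : ι → ℂ) {U : Matrix ι ι ℂ} (hU : Uᴴ * U = 1) (hU' : U * Uᴴ = 1) :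
    fn U (ex c) * fn U (ex (-c)) = 1 := by
  rw [fn_mul hU, ← fn_one hU']
  congr 1
  funext i
  rw [ex, ex, Pi.neg_apply, ← Complex.exp_add, add_neg_cancel, Complex.exp_zero]

/-- The logarithm normalises the subspaces which are stable under the conjugation. -/
lemma br_fn_mem {h : Submodule ℂ (Matrix ι ι ℂ)} {U : Matrix ι ι ℂ} (hU : Uᴴ * U = 1)
    (hU' : U * Uᴴ = 1) {c : ι → ℂ} (hc : Lg c)
    (hst : ∀ z ∈ h, fn U (ex c) * z * fn U (ex (-c)) ∈ h) {z : Matrix ι ι ℂ} (hz : z ∈ h) :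
    br (fn U c) z ∈ h := by
  have hAd : ∀ z ∈ h, had U (fun i j => ex c i * ex (-c) j) z ∈ h := by
    intro z hz
    rw [had_Ad]
    exact hst z hz
  have e1 := had_mem hU hU' hAd Complex.log hz
  have e2 : (fun i j => Complex.log (ex c i * ex (-c) j)) = fun i j => c i - c j := by
    funext i j
    exact hc.lg i j
  rw [e2, had_ad hU hU'] at e1
  exact e1

/-- The logarithm commutes with the matrices commuting with the exponential. -/
lemma fn_comm {U : Matrix ι ι ℂ} (hU : Uᴴ * U = 1) (hU' : U * Uᴴ = 1) {c : ι → ℂ} (hc : Lg c)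
    {y : Matrix ι ι ℂ} (hy : fn U (ex c) * y = y * fn U (ex c)) : fn U c * y = y * fn U c := by
  obtain ⟨Y, hY⟩ : ∃ Y, Y = Uᴴ * y * U := ⟨_, rfl⟩
  have hyY : y = U * Y * Uᴴ := by
    rw [hY]
    calc y = (U * Uᴴ) * y * (U * Uᴴ) := by rw [hU', Matrix.one_mul, Matrix.mul_one]
      _ = _ := by simp only [Matrix.mul_assoc]
  have h1 : ∀ φ : ι → ℂ, fn U φ * y = U * (diagonal φ * Y) * Uᴴ := by
    intro φ
    rw [hyY, fn]
    calc U * diagonal φ * Uᴴ * (U * Y * Uᴴ) = U * (diagonal φ * (Uᴴ * U) * Y) * Uᴴ := by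
          simp only [Matrix.mul_assoc]
      _ = _ := by rw [hU, Matrix.mul_one]
  have h2 : ∀ φ : ι → ℂ, y * fn U φ = U * (Y * diagonal φ) * Uᴴ := by
    intro φ
    rw [hyY, fn]
    calc U * Y * Uᴴ * (U * diagonal φ * Uᴴ) = U * (Y * (Uᴴ * U) * diagonal φ) * Uᴴ := by
          simp only [Matrix.mul_assoc]
      _ = _ := by rw [hU, Matrix.mul_one]
  have hcan : ∀ A : Matrix ι ι ℂ, Uᴴ * (U * A * Uᴴ) * U = A := by
    intro A
    calc Uᴴ * (U * A * Uᴴ) * U = (Uᴴ * U) * A * (Uᴴ * U) := by simp only [Matrix.mul_assoc]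
      _ = A := by rw [hU, Matrix.one_mul, Matrix.mul_one]
  rw [h1, h2] at hy
  have h3 : diagonal (ex c) * Y = Y * diagonal (ex c) := by
    rw [← hcan (diagonal (ex c) * Y), hy, hcan]
  rw [h1, h2]
  congr 2
  ext i j
  have h4 := congrFun (congrFun h3 i) j
  rw [Matrix.diagonal_mul, Matrix.mul_diagonal] at h4 ⊢
  by_cases hij : Y i j = 0
  · rw [hij, mul_zero, zero_mul]
  · have h5 : ex c i = ex c j := by
      have h6 : (ex c i - ex c j) * Y i j = 0 := by rw [sub_mul, h4]; ring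
      rcases mul_eq_zero.1 h6 with h7 | h7
      · exact sub_eq_zero.1 h7
      · exact absurd h7 hij
    rw [hc.inj h5, mul_comm]

/-- The logarithm of an isometry is skew. -/
lemma fn_skew {U : Matrix ι ι ℂ} (hU : Uᴴ * U = 1) (hU' : U * Uᴴ = 1) {c : ι → ℂ} (hc : Lg c)
    {Q : Matrix ι ι ℂ} (hQ : fn U (ex c) * Q * (fn U (ex c))ᵀ = Q) :
    fn U c * Q + Q * (fn U c)ᵀ = 0 := by
  obtain ⟨R, hR⟩ : ∃ R, R = Uᴴ * Q * (Uᴴ)ᵀ := ⟨_, rfl⟩
  have hUt : (Uᴴ)ᵀ * Uᵀ = 1 := by rw [← Matrix.transpose_mul, hU', Matrix.transpose_one]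
  have hUt' : Uᵀ * (Uᴴ)ᵀ = 1 := mul_eq_one_comm.1 hUt
  have hQR : Q = U * R * Uᵀ := by
    rw [hR]
    calc Q = (U * Uᴴ) * Q * ((Uᴴ)ᵀ * Uᵀ) := by rw [hU', hUt, Matrix.one_mul, Matrix.mul_one]
      _ = _ := by simp only [Matrix.mul_assoc]
  have hfT : ∀ φ : ι → ℂ, (fn U φ)ᵀ = (Uᴴ)ᵀ * diagonal φ * Uᵀ := by
    intro φ
    rw [fn, Matrix.transpose_mul, Matrix.transpose_mul, Matrix.diagonal_transpose,
      Matrix.mul_assoc]
  have h1 : ∀ φ : ι → ℂ, fn U φ * Q = U * (diagonal φ * R) * Uᵀ := by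
    intro φ
    rw [hQR, fn]
    calc U * diagonal φ * Uᴴ * (U * R * Uᵀ) = U * (diagonal φ * (Uᴴ * U) * R) * Uᵀ := by
          simp only [Matrix.mul_assoc]
      _ = _ := by rw [hU, Matrix.mul_one]
  have h2 : ∀ (φ : ι → ℂ) (A : Matrix ι ι ℂ), (U * A * Uᵀ) * (fn U φ)ᵀ =
      U * (A * diagonal φ) * Uᵀ := by
    intro φ A
    rw [hfT]
    calc U * A * Uᵀ * ((Uᴴ)ᵀ * diagonal φ * Uᵀ) = U * (A * (Uᵀ * (Uᴴ)ᵀ) * diagonal φ) * Uᵀ := by
          simp only [Matrix.mul_assoc]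
      _ = _ := by rw [hUt', Matrix.mul_one]
  have hcan : ∀ A : Matrix ι ι ℂ, Uᴴ * (U * A * Uᵀ) * (Uᴴ)ᵀ = A := by
    intro A
    calc Uᴴ * (U * A * Uᵀ) * (Uᴴ)ᵀ = (Uᴴ * U) * A * (Uᵀ * (Uᴴ)ᵀ) := by
          simp only [Matrix.mul_assoc]
      _ = A := by rw [hU, hUt', Matrix.one_mul, Matrix.mul_one]
  rw [h1, h2] at hQ
  have h3 : diagonal (ex c) * R * diagonal (ex c) = R := by
    rw [← hcan (diagonal (ex c) * R * diagonal (ex c)), hQ, hR]
  have h4 : Q * (fn U c)ᵀ = U * (R * diagonal c) * Uᵀ := by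
    conv_lhs => rw [hQR]
    exact h2 c R
  rw [h1, h4, ← Matrix.add_mul, ← Matrix.mul_add]
  have h5 : diagonal c * R + R * diagonal c = 0 := by
    ext i j
    have h6 := congrFun (congrFun h3 i) j
    rw [Matrix.mul_diagonal, Matrix.diagonal_mul] at h6
    rw [Matrix.add_apply, Matrix.diagonal_mul, Matrix.mul_diagonal, Matrix.zero_apply]
    by_cases hij : R i j = 0
    · rw [hij, mul_zero, zero_mul, add_zero]
    · have h7 : ex c i * ex c j = 1 := by
        have h8 : (ex c i * ex c j - 1) * R i j = 0 := by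
          rw [sub_mul, one_mul]
          rw [sub_eq_zero]
          calc ex c i * ex c j * R i j = ex c i * R i j * ex c j := by ring
            _ = _ := h6
        rcases mul_eq_zero.1 h8 with h9 | h9
        · exact sub_eq_zero.1 h9
        · exact absurd h9 hij
      have h9 := hc.sk i j h7
      calc c i * R i j + R i j * c j = (c i + c j) * R i j := by ring
        _ = 0 := by rw [h9, zero_mul]
  rw [h5, Matrix.mul_zero, Matrix.zero_mul]

variable (H) in
/-- The skew elements of the centre are detected by the trace: no nonzero skew element of the centre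
is orthogonal to the Lie algebra. -/
def NdC : Prop := ∀ y, IsC H y → cQ y * cQ H.Qir + cQ H.Qir * (cQ y)ᵀ = 0 →
  (cQ y * Ng H (RingEquiv.refl ℂ)).trace = 0 → y = 0

lemma Ng_map (σ : ℂ ≃+* ℂ) : (Ng H (RingEquiv.refl ℂ)).map σ = Ng H σ := by
  ext i j
  rw [Ng, Ng, Matrix.map_apply, Matrix.sum_apply, Matrix.sum_apply, map_sum]
  refine Finset.sum_congr rfl fun k _ => ?_
  rw [Matrix.smul_apply, Matrix.smul_apply, smul_eq_mul, smul_eq_mul, map_mul, map_intCast]
  rfl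

lemma Ng_map' (σ τ : ℂ ≃+* ℂ) : (Ng H τ).map σ = Ng H (τ.trans σ) := by
  rw [← Ng_map τ, ← Ng_map (τ.trans σ), Matrix.map_map]
  rfl

/-- **Skew central matrices orthogonal to the Lie algebra vanish.** -/
lemma NdC.eq_zero (hR : NdC H) {z : Matrix ι ι ℂ} (hzc : ∀ g ∈ GG H, z * g = g * z)
    (hze : ∀ x : Matrix ι ι ℚ, IsHE H x → z * cQ x = cQ x * z)
    (hsk : z * cQ H.Qir + cQ H.Qir * zᵀ = 0)
    (htr : ∀ σ : ℂ ≃+* ℂ, (z * Ng H σ).trace = 0) : z = 0 := by
  let C : Submodule ℂ (ι × ι → ℂ) :=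
    { carrier := {v | (∀ g ∈ GG H, (Matrix.of fun i j => v (i, j)) * g =
        g * (Matrix.of fun i j => v (i, j))) ∧
        (∀ x, IsHE H x → (Matrix.of fun i j => v (i, j)) * cQ x =
          cQ x * (Matrix.of fun i j => v (i, j))) ∧
        (Matrix.of fun i j => v (i, j)) * cQ H.Qir +
          cQ H.Qir * (Matrix.of fun i j => v (i, j))ᵀ = 0 ∧
        ∀ σ : ℂ ≃+* ℂ, ((Matrix.of fun i j => v (i, j)) * Ng H σ).trace = 0}
      add_mem' := by
        rintro a b ⟨h1, h2, h3, h4⟩ ⟨h1', h2', h3', h4'⟩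
        have e : (Matrix.of fun i j => (a + b) (i, j)) =
          (Matrix.of fun i j => a (i, j)) + (Matrix.of fun i j => b (i, j)) := rfl
        refine ⟨fun g hg => ?_, fun x hx => ?_, ?_, fun σ => ?_⟩
        · rw [e, Matrix.mul_add, Matrix.add_mul, h1 g hg, h1' g hg]
        · rw [e, Matrix.mul_add, Matrix.add_mul, h2 x hx, h2' x hx]
        · rw [e, Matrix.transpose_add, Matrix.mul_add, Matrix.add_mul, add_add_add_comm, h3, h3',
            add_zero]
        · rw [e, Matrix.add_mul, Matrix.trace_add, h4 σ, h4' σ, add_zero]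
      zero_mem' := by
        have e : (Matrix.of fun i j => (0 : ι × ι → ℂ) (i, j)) = 0 := rfl
        refine ⟨fun g hg => ?_, fun x hx => ?_, ?_, fun σ => ?_⟩ <;>
          rw [e] <;> simp
      smul_mem' := by
        rintro c a ⟨h1, h2, h3, h4⟩
        have e : (Matrix.of fun i j => (c • a) (i, j)) =
          c • (Matrix.of fun i j => a (i, j)) := rfl
        refine ⟨fun g hg => ?_, fun x hx => ?_, ?_, fun σ => ?_⟩
        · rw [e, Matrix.mul_smul, Matrix.smul_mul, h1 g hg]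
        · rw [e, Matrix.mul_smul, Matrix.smul_mul, h2 x hx]
        · rw [e, Matrix.transpose_smul, Matrix.mul_smul, Matrix.smul_mul, ← smul_add, h3,
            smul_zero]
        · rw [e, Matrix.smul_mul, Matrix.trace_smul, h4 σ, smul_zero] }
  have hC : ∀ (σ : ℂ ≃+* ℂ), ∀ v ∈ C, (fun i => σ (v i)) ∈ C := by
    rintro σ v ⟨h1, h2, h3, h4⟩
    have e0 : (Matrix.of fun i j => (fun i => σ (v i)) (i, j)) =
        (Matrix.of fun i j => v (i, j)).map σ := rfl
    have e1 : (⇑σ ∘ ⇑σ.symm) = id := by ext; simp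
    refine ⟨fun g hg => ?_, fun x hx => ?_, ?_, fun τ => ?_⟩
    · have h5 := congrArg (fun M => M.map σ) (h1 (g.map σ.symm) (GG_map H σ.symm hg))
      simp only [map_mul', Matrix.map_map, e1, Matrix.map_id] at h5
      exact h5
    · have h5 := congrArg (fun M => M.map σ) (h2 x hx)
      simp only [map_mul', cQ_map] at h5
      exact h5
    · have h5 := congrArg (fun M => M.map σ) h3
      beta_reduce at h5
      rw [Matrix.map_add _ (map_add σ), map_mul', map_mul', cQ_map, Matrix.transpose_map] at h5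
      rw [e0, h5]
      ext i j
      simp
    · have h5 := congrArg σ (h4 (τ.trans σ.symm))
      have h6 : (Ng H (τ.trans σ.symm)).map σ = Ng H τ := by
        rw [Ng_map']
        congr 1
        ext x
        simp
      rw [e0, ← h6, ← map_mul']
      rw [map_zero] at h5
      rw [← h5, Matrix.trace, Matrix.trace, map_sum]
      rfl
  have hzC : (fun v : ι × ι => z v.1 v.2) ∈ C := ⟨hzc, hze, hsk, htr⟩
  rw [Pool.Agent.W437.HD.span_rational C hC] at hzC
  have key : ∀ v ∈ Submodule.span ℂ {w | w ∈ C ∧ ∃ u : ι × ι → ℚ, w = fun i => (u i : ℂ)},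
      v = 0 := by
    intro v hv
    induction hv using Submodule.span_induction with
    | mem v hv =>
      obtain ⟨⟨h1, h2, h3, h4⟩, u, rfl⟩ := hv
      have e0 : (Matrix.of fun i j => (fun i => (u i : ℂ)) (i, j)) =
          cQ (Matrix.of fun i j => u (i, j)) := rfl
      rw [e0] at h1 h2 h3 h4
      have h5 := hR _ ⟨fun t ht => (h1 _ (Submonoid.subset_closure (l_mem_gens H ht))).symm,
        fun y hy => AData.cQ_inj (by rw [cQ_mul, cQ_mul, h2 y hy])⟩ h3 (h4 _)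
      funext i
      have h6 := congrFun (congrFun h5 i.1) i.2
      have h7 : u i = 0 := h6
      rw [h7]
      simp
    | zero => rfl
    | add a b _ _ ha hb => rw [ha, hb, add_zero]
    | smul c a _ ha => rw [ha, smul_zero]
  ext i j
  exact congrFun (key _ hzC) (i, j)

/-- **Logarithms of matrices which fix the Hodge classes of degree two and four.** -/
theorem fn_mem_hn (hR : NdC H) {U : Matrix ι ι ℂ} (hU : Uᴴ * U = 1) {c : ι → ℂ} (hc : Lg c)
    (h2 : Fixes H (cj H (fn U (ex c))) (Unit ⊕ Unit))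
    (h4 : Fixes H (cj H (fn U (ex c))) ((Unit ⊕ Unit) ⊕ (Unit ⊕ Unit))) : fn U c ∈ hn H := by
  have hU' : U * Uᴴ = 1 := mul_eq_one_comm.1 hU
  have hh := isLA_hn H
  have hgg := ex_mul_neg c hU hU'
  have hgg' := mul_eq_one_comm.1 hgg
  have hcgg : cj H (fn U (ex (-c))) * cj H (fn U (ex c)) = 1 := by
    rw [← cj_mul, hgg', cj_one]
  have hst : ∀ z ∈ hn H, fn U (ex c) * z * fn U (ex (-c)) ∈ hn H := by
    intro z hz
    rw [mem_hn, cj_mul, cj_mul]
    exact ad_fix hcgg h2 h4 hz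
  obtain ⟨s, hs⟩ : ∃ s, s = fn U c := ⟨_, rfl⟩
  have hads : ∀ z ∈ hn H, br s z ∈ hn H := by
    intro z hz
    rw [hs]
    exact br_fn_mem hU hU' hc hst hz
  obtain ⟨s₁, hs₁, hort⟩ := exists_orthM (hn H) s
  obtain ⟨s₂, hs₂⟩ : ∃ s₂, s₂ = s - s₁ := ⟨_, rfl⟩
  rw [← hs₂] at hort
  have hcom : ∀ z ∈ hn H, br s₂ z = 0 := by
    intro z hz
    have e1 : br s₂ z ∈ hn H := by
      have : br s₂ z = br s z - br s₁ z := by
        rw [hs₂]; simp only [br, Matrix.sub_mul, Matrix.mul_sub]; abel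
      rw [this]
      exact Submodule.sub_mem _ (hads z hz) (hh.lie _ hs₁ _ hz)
    apply nsq_eq_zero
    rw [nsq]
    obtain ⟨w, hw⟩ : ∃ w, w = br s₂ z := ⟨_, rfl⟩
    rw [← hw] at e1
    rw [← hw]
    nth_rewrite 2 [hw]
    rw [br_swap, Matrix.mul_neg, Matrix.trace_neg, ← tr_br]
    have e2 : br wᴴ z = (br zᴴ w)ᴴ := by
      rw [br_star, Matrix.conjTranspose_conjTranspose]
    rw [e2, hort _ (hh.lie _ (hh.star _ hz) _ e1), neg_zero]
  -- `s₂` is central
  have hcomm2 : ∀ w ∈ ho H, cj H s₂ * w = w * cj H s₂ := by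
    intro w hw
    have h5 := hcom (cji H w) (by rw [mem_hn, cj_cji]; exact hw)
    rw [br, sub_eq_zero] at h5
    have h6 := congrArg (cj H) h5
    rwa [cj_mul, cj_mul, cj_cji] at h6
  have hcen : ∀ x : Matrix ι ι ℚ, IsHE H x → cj H s₂ * cQ x = cQ x * cj H s₂ := by
    intro x hx
    have e1 : cj H s * cQ x = cQ x * cj H s := by
      have e2 : fn U (ex c) * cji H (cQ x) = cji H (cQ x) * fn U (ex c) := by
        have e3 := hx.comm_fix h2
        have e4 := congrArg (cji H) e3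
        rwa [cji_mul, cji_mul, cji_cj] at e4
      have e5 := fn_comm hU hU' hc e2
      rw [← hs] at e5
      have e6 := congrArg (cj H) e5
      rwa [cj_mul, cj_mul, cj_cji] at e6
    have e2 : cj H s₁ * cQ x = cQ x * cj H s₁ := hx.comm_ho (mem_hn H |>.1 hs₁)
    rw [hs₂, cj_sub, Matrix.sub_mul, Matrix.mul_sub, e1, e2]
  -- skewness
  have hsk : cj H s * cQ H.Qir + cQ H.Qir * (cj H s)ᵀ = 0 := by
    have e1 := fix_Q H h2
    obtain ⟨Q, hQ⟩ : ∃ Q, Q = Mm H * cQ H.Qir * (Mm H)ᵀ := ⟨_, rfl⟩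
    have e0 : (Mi H)ᵀ * (Mm H)ᵀ = 1 := by
      rw [← Matrix.transpose_mul, Mm_Mi, Matrix.transpose_one]
    have e0' : (Mm H)ᵀ * (Mi H)ᵀ = 1 := mul_eq_one_comm.1 e0
    have e2 : fn U (ex c) * Q * (fn U (ex c))ᵀ = Q := by
      have e3 := congrArg (fun M => Mm H * M * (Mm H)ᵀ) e1
      beta_reduce at e3
      rw [cj, Matrix.transpose_mul, Matrix.transpose_mul] at e3
      rw [hQ]
      calc fn U (ex c) * (Mm H * cQ H.Qir * (Mm H)ᵀ) * (fn U (ex c))ᵀ =
          1 * fn U (ex c) * (Mm H * cQ H.Qir * (Mm H)ᵀ) * (fn U (ex c))ᵀ * 1 := by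
            rw [Matrix.one_mul, Matrix.mul_one]
        _ = (Mm H * Mi H) * fn U (ex c) * (Mm H * cQ H.Qir * (Mm H)ᵀ) * (fn U (ex c))ᵀ *
            ((Mi H)ᵀ * (Mm H)ᵀ) := by rw [Mm_Mi, e0]
        _ = Mm H * (Mi H * fn U (ex c) * Mm H * cQ H.Qir *
            ((Mm H)ᵀ * ((fn U (ex c))ᵀ * (Mi H)ᵀ))) * (Mm H)ᵀ := by
              simp only [Matrix.mul_assoc]
        _ = _ := e3
    have e3 := fn_skew hU hU' hc e2
    rw [← hs, hQ] at e3
    have e4 := congrArg (fun M => Mi H * M * (Mi H)ᵀ) e3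
    beta_reduce at e4
    rw [Matrix.mul_zero, Matrix.zero_mul] at e4
    rw [cj, Matrix.transpose_mul, Matrix.transpose_mul]
    rw [← e4, Matrix.mul_add, Matrix.add_mul]
    congr 1
    · calc Mi H * s * Mm H * cQ H.Qir = Mi H * s * Mm H * cQ H.Qir * ((Mm H)ᵀ * (Mi H)ᵀ) := by
            rw [e0', Matrix.mul_one]
        _ = _ := by simp only [Matrix.mul_assoc]
    · calc cQ H.Qir * ((Mm H)ᵀ * (sᵀ * (Mi H)ᵀ)) =
          (Mi H * Mm H) * (cQ H.Qir * ((Mm H)ᵀ * (sᵀ * (Mi H)ᵀ))) := by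
            rw [Mi_Mm, Matrix.one_mul]
        _ = _ := by simp only [Matrix.mul_assoc]
  have hsk1 := ho_skew (mem_hn H |>.1 hs₁)
  have hsk2 : cj H s₂ * cQ H.Qir + cQ H.Qir * (cj H s₂)ᵀ = 0 := by
    have e1 : cj H s₂ = cj H s - cj H s₁ := by rw [hs₂, cj_sub]
    rw [e1, Matrix.transpose_sub, Matrix.sub_mul, Matrix.mul_sub]
    calc cj H s * cQ H.Qir - cj H s₁ * cQ H.Qir +
        (cQ H.Qir * (cj H s)ᵀ - cQ H.Qir * (cj H s₁)ᵀ) =
        (cj H s * cQ H.Qir + cQ H.Qir * (cj H s)ᵀ) -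
          (cj H s₁ * cQ H.Qir + cQ H.Qir * (cj H s₁)ᵀ) := by abel
      _ = 0 := by rw [hsk, hsk1, sub_zero]
  have htr : ∀ w ∈ ho H, (cj H s₂ * w).trace = 0 := by
    intro w hw
    have e1 : cji H w ∈ hn H := by rw [mem_hn, cj_cji]; exact hw
    have e2 := hort _ (hh.star _ e1)
    rw [Matrix.conjTranspose_conjTranspose] at e2
    have e3 : (cj H s₂ * w).trace = (s₂ * cji H w).trace := by
      have e4 : cj H s₂ * w = cj H (s₂ * cji H w) := by rw [cj_mul, cj_cji]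
      rw [e4, cj, Matrix.trace_mul_comm, ← Matrix.mul_assoc, Mm_Mi, Matrix.one_mul]
    rw [e3, Matrix.trace_mul_comm]
    exact e2
  have h5 : cj H s₂ = 0 := hR.eq_zero (fun g hg => comm_GG hcomm2 hg) hcen hsk2
    fun σ => htr _ (Ng_mem σ)
  have h6 : s₂ = 0 := by
    rw [← cji_cj H s₂, h5, cji, Matrix.mul_zero, Matrix.zero_mul]
  rw [hs₂, sub_eq_zero] at h6
  rw [← hs, h6]
  exact hs₁

/-- Matrices which fix the Hodge classes of degree two and four and have a logarithm. -/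
theorem fn_mem_Sn (hR : NdC H) {U : Matrix ι ι ℂ} (hU : Uᴴ * U = 1) {c : ι → ℂ} (hc : Lg c)
    (h2 : Fixes H (cj H (fn U (ex c))) (Unit ⊕ Unit))
    (h4 : Fixes H (cj H (fn U (ex c))) ((Unit ⊕ Unit) ⊕ (Unit ⊕ Unit))) :
    fn U (ex c) ∈ Sn H := by
  have h1 := (isGrp_Sn H).exp _ (fn_mem_hn hR hU hc h2 h4)
  rw [exp_fn hU] at h1
  exact h1

end Pool.Agent.K9h40.FP4
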