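import Pool.Agent.K9h40.FP4.Lie4

/-!
# Unitary matrices near the identity
-/

set_option linter.unusedSectionVars false

namespace Pool.Agent.K9h40.FP4

open Matrix Pool.Agent.N996.BP Pool.Agent.N996.FP ComplexConjugate ComplexOrder

variable {ι : Type} [Fintype ι] [DecidableEq ι] {H : HData ι}

/-- Numbers in the right half plane have good logarithms. -/
lemma exists_Lg {lam : ι → ℂ} (h : ∀ i, 0 < (lam i).re) : ∃ c, Lg c ∧ ex c = lam := by
  have him : ∀ i, |(Complex.log (lam i)).im| < Real.pi / 2 := by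
    intro i
    rw [Complex.log_im]
    exact Complex.abs_arg_lt_pi_div_two_iff.2 (Or.inl (h i))
  have hpi := Real.pi_pos
  refine ⟨fun i => Complex.log (lam i), ⟨fun i j => ?_, fun i j hij => ?_⟩, ?_⟩
  · rw [← Complex.exp_add, ← sub_eq_add_neg]
    have h1 := abs_lt.1 (him i)
    have h2 := abs_lt.1 (him j)
    apply Complex.log_exp
    · rw [Complex.sub_im]; linarith [h1.1, h2.2]
    · rw [Complex.sub_im]; linarith [h1.2, h2.1]
  · rw [← Complex.exp_add, Complex.exp_eq_one_iff] at hij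
    obtain ⟨n, hn⟩ := hij
    have h1 := abs_lt.1 (him i)
    have h2 := abs_lt.1 (him j)
    have h3 := congrArg Complex.im hn
    have h4 : ((n : ℂ) * (2 * (Real.pi : ℂ) * Complex.I)).im = n * (2 * Real.pi) := by
      simp
    rw [h4, Complex.add_im] at h3
    have h5 : (n : ℝ) < 1 := by
      by_contra hcon
      push Not at hcon
      nlinarith
    have h6 : (-1 : ℝ) < n := by
      by_contra hcon
      push Not at hcon
      nlinarith
    have h7 : n < 1 := by exact_mod_cast h5
    have h8 : -1 < n := by exact_mod_cast h6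
    have h9 : n = 0 := by omega
    rw [hn, h9, Int.cast_zero, zero_mul]
  · funext i
    refine Complex.exp_log ?_
    intro h0
    have := h i
    rw [h0] at this
    simp at this

lemma eig_near {g : Matrix ι ι ℂ} {ε : ℝ} (hε : ∀ i j, ‖g i j‖ ≤ ε)
    (hc : Fintype.card ι * ε < 1) {u : ι → ℂ} (hu : u ≠ 0) {μ : ℂ} (h : g *ᵥ u = μ • u) :
    ‖μ‖ < 1 := by
  have hun : 0 < ‖u‖ := norm_pos_iff.2 hu
  have h1 : ‖g *ᵥ u‖ ≤ Fintype.card ι * ε * ‖u‖ := by
    obtain ⟨i₀, -⟩ : ∃ i, u i ≠ 0 := by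
      by_contra hcon
      push Not at hcon
      exact hu (funext hcon)
    have hε0 : 0 ≤ ε := (norm_nonneg _).trans (hε i₀ i₀)
    refine (pi_norm_le_iff_of_nonneg (by positivity)).2 fun i => ?_
    rw [Matrix.mulVec, dotProduct]
    refine (norm_sum_le _ _).trans ?_
    have h2 : ∀ j ∈ (Finset.univ : Finset ι), ‖g i j * u j‖ ≤ ε * ‖u‖ := by
      intro j _
      rw [norm_mul]
      exact mul_le_mul (hε i j) (norm_le_pi_norm u j) (norm_nonneg _) hε0
    refine (Finset.sum_le_card_nsmul _ _ _ h2).trans (le_of_eq ?_)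
    rw [Finset.card_univ, nsmul_eq_mul]
    ring
  rw [h, norm_smul] at h1
  nlinarith

/-- **Unitary matrices near the identity are diagonalisable, with eigenvalues in the right half
plane.** -/
lemma exists_fn_near {g : Matrix ι ι ℂ} (hg : gᴴ * g = 1) {ε : ℝ}
    (hε : ∀ i j, ‖(g - 1) i j‖ ≤ ε) (hc : Fintype.card ι * ε < 1) :
    ∃ (U : Matrix ι ι ℂ) (lam : ι → ℂ), Uᴴ * U = 1 ∧ g = fn U lam ∧ ∀ i, 0 < (lam i).re := by
  have hg' : g * gᴴ = 1 := mul_eq_one_comm.1 hg
  -- `1 + g` is invertible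
  have hN : IsUnit (1 + g) := by
    rw [← Matrix.mulVec_injective_iff_isUnit]
    intro u v huv
    have h1 : (1 + g) *ᵥ (u - v) = 0 := by rw [Matrix.mulVec_sub, sub_eq_zero]; exact huv
    by_contra hne
    have h2 : u - v ≠ 0 := sub_ne_zero.2 hne
    have h3 : (g - 1) *ᵥ (u - v) = (-2 : ℂ) • (u - v) := by
      have h4 : g - 1 = (1 + g) + (-2 : ℂ) • (1 : Matrix ι ι ℂ) := by
        rw [neg_smul, two_smul]; abel
      rw [h4, Matrix.add_mulVec, h1, zero_add, Matrix.smul_mulVec, Matrix.one_mulVec]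
    have h5 := eig_near hε hc h2 h3
    rw [norm_neg] at h5
    norm_num at h5
  obtain ⟨⟨N, N', hNN, hNN'⟩, hN1⟩ := hN
  change N = 1 + g at hN1
  subst hN1
  obtain ⟨A, hA⟩ : ∃ A, A = Complex.I • ((1 - g) * N') := ⟨_, rfl⟩
  have hAN : A * (1 + g) = Complex.I • (1 - g) := by
    rw [hA, Matrix.smul_mul, Matrix.mul_assoc, hNN', Matrix.mul_one]
  have hAH : Aᴴ = A := by
    have e1 : (1 + gᴴ) * Aᴴ = -(Complex.I • (1 - gᴴ)) := by
      have h1 := congrArg conjTranspose hAN
      rw [Matrix.conjTranspose_mul, Matrix.conjTranspose_smul, Matrix.conjTranspose_add,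
        Matrix.conjTranspose_sub, Matrix.conjTranspose_one] at h1
      rw [h1]
      have h2 : star Complex.I = -Complex.I := Complex.conj_I
      rw [h2, neg_smul]
    have e2 : (1 + gᴴ) * A * (1 + g) = (1 + gᴴ) * Aᴴ * (1 + g) := by
      rw [Matrix.mul_assoc, hAN, e1, Matrix.mul_smul, Matrix.neg_mul, Matrix.smul_mul, ← smul_neg]
      congr 1
      rw [Matrix.add_mul, Matrix.one_mul, Matrix.mul_sub, Matrix.mul_one, hg, Matrix.mul_add,
        Matrix.mul_one, Matrix.sub_mul, Matrix.one_mul, hg]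
      abel
    have e3 : (N'ᴴ) * (1 + gᴴ) = 1 := by
      have h1 := congrArg conjTranspose hNN
      rwa [Matrix.conjTranspose_mul, Matrix.conjTranspose_add, Matrix.conjTranspose_one] at h1
    have e4 : ∀ B : Matrix ι ι ℂ, N'ᴴ * ((1 + gᴴ) * B * (1 + g)) * N' = B := by
      intro B
      calc N'ᴴ * ((1 + gᴴ) * B * (1 + g)) * N' = (N'ᴴ * (1 + gᴴ)) * B * ((1 + g) * N') := by
            simp only [Matrix.mul_assoc]
        _ = B := by rw [e3, hNN, Matrix.one_mul, Matrix.mul_one]
    rw [← e4 Aᴴ, ← e2, e4]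
  obtain ⟨U, a, hU, hU', hAd⟩ := exists_diag hAH
  -- the eigenvalues
  obtain ⟨G, hG⟩ : ∃ G, G = Uᴴ * g * U := ⟨_, rfl⟩
  have hgG : g = U * G * Uᴴ := by
    rw [hG]
    calc g = (U * Uᴴ) * g * (U * Uᴴ) := by rw [hU', Matrix.one_mul, Matrix.mul_one]
      _ = _ := by simp only [Matrix.mul_assoc]
  have e5 : diagonal (fun i => (a i : ℂ) + Complex.I) * G =
      diagonal (fun i => Complex.I - (a i : ℂ)) := by
    have e6 : (A + Complex.I • (1 : Matrix ι ι ℂ)) * g = Complex.I • (1 : Matrix ι ι ℂ) - A := by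
      have e7 : A + A * g = Complex.I • (1 : Matrix ι ι ℂ) - Complex.I • g := by
        rw [← smul_sub, ← hAN, Matrix.mul_add, Matrix.mul_one]
      rw [Matrix.add_mul, Matrix.smul_mul, Matrix.one_mul]
      have e8 : A * g = Complex.I • (1 : Matrix ι ι ℂ) - Complex.I • g - A := by
        rw [← e7]; abel
      rw [e8]; abel
    have e9 := congrArg (fun M => Uᴴ * M * U) e6
    beta_reduce at e9
    have e10 : Uᴴ * ((A + Complex.I • (1 : Matrix ι ι ℂ)) * g) * U =
        diagonal (fun i => (a i : ℂ) + Complex.I) * G := by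
      have e11 : A + Complex.I • (1 : Matrix ι ι ℂ) = fn U fun i => (a i : ℂ) + Complex.I := by
        rw [fn_add, ← fn_one hU']
        congr 1
        rw [← fn_smul]
        congr 1
        funext i
        rw [mul_one]
      rw [e11, fn, hG]
      calc Uᴴ * (U * diagonal (fun i => (a i : ℂ) + Complex.I) * Uᴴ * g) * U =
          (Uᴴ * U) * diagonal (fun i => (a i : ℂ) + Complex.I) * (Uᴴ * g * U) := by
            simp only [Matrix.mul_assoc]
        _ = _ := by rw [hU, Matrix.one_mul]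
    have e12 : Uᴴ * (Complex.I • (1 : Matrix ι ι ℂ) - A) * U =
        diagonal (fun i => Complex.I - (a i : ℂ)) := by
      have e11 : Complex.I • (1 : Matrix ι ι ℂ) - A = fn U fun i => Complex.I - (a i : ℂ) := by
        have e13 : (fun i => Complex.I - (a i : ℂ)) = fun i => Complex.I * 1 + (-1) * (a i : ℂ) := by
          funext i; ring
        rw [e13, fn_add, fn_smul, fn_smul, fn_one hU', neg_one_smul, ← sub_eq_add_neg]
        congr 1
      rw [e11, fn]
      calc Uᴴ * (U * diagonal (fun i => Complex.I - (a i : ℂ)) * Uᴴ) * U =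
          (Uᴴ * U) * diagonal (fun i => Complex.I - (a i : ℂ)) * (Uᴴ * U) := by
            simp only [Matrix.mul_assoc]
        _ = _ := by rw [hU, Matrix.one_mul, Matrix.mul_one]
    rw [← e10, e9, e12]
  have hne : ∀ i, (a i : ℂ) + Complex.I ≠ 0 := by
    intro i h0
    have := congrArg Complex.im h0
    simp at this
  obtain ⟨lam, hlam⟩ : ∃ lam : ι → ℂ, lam = fun i => (Complex.I - (a i : ℂ)) / ((a i : ℂ) + Complex.I) :=
    ⟨_, rfl⟩
  have hGd : G = diagonal lam := by
    ext i j
    have h1 := congrFun (congrFun e5 i) j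
    rw [Matrix.diagonal_mul, Matrix.diagonal_apply] at h1
    rw [Matrix.diagonal_apply, hlam]
    split_ifs at h1 ⊢ with hij
    · rw [eq_div_iff (hne i), mul_comm]; exact h1
    · rcases mul_eq_zero.1 h1 with h2 | h2
      · exact absurd h2 (hne i)
      · exact h2
  refine ⟨U, lam, hU, ?_, fun i => ?_⟩
  · rw [hgG, hGd, fn]
  · -- the eigenvector
    have hu : U *ᵥ Pi.single i 1 ≠ 0 := by
      intro h0
      have h1 := congrArg (fun v => Uᴴ *ᵥ v) h0
      beta_reduce at h1
      rw [Matrix.mulVec_mulVec, hU, Matrix.one_mulVec, Matrix.mulVec_zero] at h1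
      have h2 := congrFun h1 i
      rw [Pi.single_eq_same] at h2
      exact one_ne_zero h2
    have hev : (g - 1) *ᵥ (U *ᵥ Pi.single i 1) = (lam i - 1) • (U *ᵥ Pi.single i (1 : ℂ)) := by
      rw [Matrix.sub_mulVec, Matrix.one_mulVec, sub_smul, one_smul]
      congr 1
      rw [hgG, hGd, Matrix.mulVec_mulVec, Matrix.mul_assoc, Matrix.mul_assoc, hU, Matrix.mul_one,
        ← Matrix.mulVec_mulVec, ← Matrix.mulVec_smul]
      congr 1
      funext j
      rw [Matrix.mulVec_diagonal, Pi.smul_apply, smul_eq_mul]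
      by_cases hj : j = i
      · subst hj; rfl
      · rw [Pi.single_eq_of_ne hj, mul_zero, mul_zero]
    have h1 := eig_near hε hc hu hev
    have h2 : |(lam i - 1).re| < 1 := lt_of_le_of_lt (Complex.abs_re_le_norm _) h1
    rw [Complex.sub_re, Complex.one_re] at h2
    linarith [(abs_lt.1 h2).1]

end Pool.Agent.K9h40.FP4
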