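import Pool.Agent.K9h40.FP4.Grp

/-!
# Averages over the cosets and the number of the Hodge classes
-/

set_option linter.unusedSectionVars false
set_option linter.unusedVariables false
set_option maxHeartbeats 400000

namespace Pool.Agent.K9h40.FP4

open Matrix Pool.Agent.N996.BP Pool.Agent.N996.FP ComplexConjugate Topology

variable {ι : Type} [Fintype ι] [DecidableEq ι] {H : HData ι}
  {B : ∀ n : ℕ, Submodule ℚ ((Fin (n + 1) → ι) → ℚ)}

/-- The group of the invertible matrices which fix the family. -/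
def PU (B : ∀ n : ℕ, Submodule ℚ ((Fin (n + 1) → ι) → ℚ)) : Subgroup (Matrix ι ι ℂ)ˣ where
  carrier := {u | (u : Matrix ι ι ℂ) ∈ PS B}
  mul_mem' {x y} hx hy := (PS B).mul_mem hx hy
  one_mem' := (PS B).one_mem
  inv_mem' {x} hx := PS_inv x.inv_mul hx

variable (H) in
/-- The group of the invertible matrices which fix the Hodge classes. -/
def SU : Subgroup (Matrix ι ι ℂ)ˣ where
  carrier := {u | (u : Matrix ι ι ℂ) ∈ So H}
  mul_mem' {x y} hx hy := (So H).mul_mem hx hy
  one_mem' := (So H).one_mem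
  inv_mem' {x} hx := So_inv x.mul_inv hx

/-- The cosets. -/
abbrev Cst (H : HData ι) (B : ∀ n : ℕ, Submodule ℚ ((Fin (n + 1) → ι) → ℚ)) : Type :=
  PU B ⧸ (SU H).subgroupOf (PU B)

variable (hA : RFam H B) (hN : ∀ n, n + 1 ≤ 4 → BB H (Fin (n + 1)) ≤ B n)

include hA hN in
lemma finite_Cst (hR : NdC H) : Finite (Cst H B) := by
  obtain ⟨F, hF, hcov⟩ := finite_cosets hA hN hR
  let f : F → Cst H B := fun g => QuotientGroup.mk
    (⟨⟨cj H g, cj H (g : Matrix ι ι ℂ)ᴴ,
      by rw [← cj_mul, mul_eq_one_comm.1 (hF g g.2).1, cj_one],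
      by rw [← cj_mul, (hF g g.2).1, cj_one]⟩, (hF g g.2).2⟩ : PU B)
  refine Finite.of_surjective f fun x => ?_
  obtain ⟨p, rfl⟩ := QuotientGroup.mk_surjective x
  obtain ⟨g, hg, hgp⟩ := hcov (cji H (p : (Matrix ι ι ℂ)ˣ)) (by rw [cj_cji]; exact p.2)
  refine ⟨⟨g, hg⟩, ?_⟩
  rw [QuotientGroup.eq, Subgroup.mem_subgroupOf]
  change _ ∈ So H
  rw [mem_Sn, cj_mul, cj_cji] at hgp
  exact hgp

section Avg

variable [Fintype (Cst H B)] {κ : Type} [Fintype κ] [DecidableEq κ]

/-- The representative of a coset. -/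
noncomputable def rp (q : Cst H B) : Matrix ι ι ℂ := ((Quotient.out q : PU B) : (Matrix ι ι ℂ)ˣ)

lemma rp_mem (q : Cst H B) : rp q ∈ PS B := (Quotient.out q : PU B).2

/-- The sum over the cosets. -/
noncomputable def avg (H : HData ι) (B : ∀ n : ℕ, Submodule ℚ ((Fin (n + 1) → ι) → ℚ))
    [Fintype (Cst H B)] (κ : Type) [Fintype κ] [DecidableEq κ] (x : (κ → ι) → ℂ) :
    (κ → ι) → ℂ := ∑ q : Cst H B, kp κ (rp q) *ᵥ x

lemma rp_smul (p : PU B) (q : Cst H B) : ∃ s ∈ So H, rp (p • q) =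
    ((p : (Matrix ι ι ℂ)ˣ) : Matrix ι ι ℂ) * rp q * s := by
  have h1 : p • q = QuotientGroup.mk (p * Quotient.out q) := by
    conv_lhs => rw [← QuotientGroup.out_eq' q]
    rfl
  obtain ⟨s, hs⟩ := QuotientGroup.mk_out_eq_mul ((SU H).subgroupOf (PU B)) (p * Quotient.out q)
  refine ⟨(((s : PU B) : (Matrix ι ι ℂ)ˣ) : Matrix ι ι ℂ), ?_, ?_⟩
  · have h2 := s.2
    rw [Subgroup.mem_subgroupOf] at h2
    exact h2
  · rw [h1, rp]
    have h3 := congrArg (fun u : PU B => ((u : (Matrix ι ι ℂ)ˣ) : Matrix ι ι ℂ)) hs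
    exact h3

lemma avg_inv {x : (κ → ι) → ℂ} (hx : ∀ s ∈ So H, kp κ s *ᵥ x = x) {p : Matrix ι ι ℂ}
    (hp : p ∈ PS B) {p' : Matrix ι ι ℂ} (hpp : p * p' = 1) :
    kp κ p *ᵥ avg H B κ x = avg H B κ x := by
  let P : PU B := ⟨⟨p, p', hpp, mul_eq_one_comm.1 hpp⟩, hp⟩
  rw [avg, Matrix.mulVec_sum]
  refine Fintype.sum_equiv (MulAction.toPerm P) _ _ fun q => ?_
  rw [MulAction.toPerm_apply]
  obtain ⟨s, hs, h1⟩ := rp_smul P q
  rw [h1, kp_mul, ← Matrix.mulVec_mulVec, hx s hs, kp_mul, ← Matrix.mulVec_mulVec]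

lemma rp_one : rp (QuotientGroup.mk 1 : Cst H B) ∈ So H := by
  obtain ⟨s, hs⟩ := QuotientGroup.mk_out_eq_mul ((SU H).subgroupOf (PU B)) (1 : PU B)
  have h2 := s.2
  rw [Subgroup.mem_subgroupOf] at h2
  rw [one_mul] at hs
  have h3 := congrArg (fun u : PU B => ((u : (Matrix ι ι ℂ)ˣ) : Matrix ι ι ℂ)) hs
  have h4 : rp (QuotientGroup.mk 1 : Cst H B) = (((s : PU B) : (Matrix ι ι ℂ)ˣ) : Matrix ι ι ℂ) := h3
  rw [h4]
  exact h2

lemma rp_ne {q : Cst H B} (hq : q ≠ QuotientGroup.mk 1) : rp q ∉ So H := by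
  intro h
  apply hq
  rw [← QuotientGroup.out_eq' q]
  symm
  rw [QuotientGroup.eq, inv_one, one_mul, Subgroup.mem_subgroupOf]
  exact h

end Avg

/-! ### Separation -/

section Sep

lemma ca_add {κ : Type} (a b : (κ → ι) → ℚ) : ca (a + b) = ca a + ca b := by
  funext i
  simp [ca]

/-- A functional which vanishes at a vector and not at another. -/
lemma exists_functional {m : Type} [Fintype m] {x y : m → ℂ} (h : ∀ c : ℂ, x ≠ c • y) :
    ∃ s : (m → ℂ) →ₗ[ℂ] ℂ, s x = 1 ∧ s y = 0 := by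
  have h1 : x ∉ Submodule.span ℂ {y} := by
    intro h2
    obtain ⟨c, hc⟩ := Submodule.mem_span_singleton.1 h2
    exact h c hc.symm
  obtain ⟨f, hf, hfV⟩ := Submodule.exists_dual_map_eq_bot_of_notMem h1 inferInstance
  refine ⟨(f x)⁻¹ • f, ?_, ?_⟩
  · rw [LinearMap.smul_apply, smul_eq_mul, inv_mul_cancel₀ hf]
  · have h2 : f y ∈ (Submodule.span ℂ {y}).map f :=
      Submodule.mem_map_of_mem (Submodule.mem_span_singleton_self y)
    rw [hfV, Submodule.mem_bot] at h2
    rw [LinearMap.smul_apply, h2, smul_zero]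

/-- The array is separated from its image by a functional. -/
def Sepd (H : HData ι) (F : Finset (Matrix ι ι ℂ)) : Prop :=
  ∃ (κ : Type) (_ : Fintype κ) (_ : DecidableEq κ) (_ : Nonempty κ) (T : (κ → ι) → ℚ)
    (s : ((κ → ι) → ℂ) →ₗ[ℂ] ℂ), T ∈ BB H κ ∧ s (ca T) = 1 ∧ ∀ g ∈ F, s (kp κ g *ᵥ ca T) = 0

lemma uni_ne (o : ι) (κ : Type) [Fintype κ] [DecidableEq κ] : ca (uni ℚ o κ) ≠ 0 := by
  intro h
  have h1 := congrFun h fun _ => o
  rw [ca, uni] at h1
  simp at h1

include hA hN in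
lemma sep_one {g : Matrix ι ι ℂ} (hg : g ∈ PS B) (hgS : g ∉ So H) : Sepd H {g} := by
  rw [mem_So] at hgS
  push Not at hgS
  obtain ⟨κ, _, _, hκ⟩ := hgS
  unfold Fixes at hκ
  push Not at hκ
  obtain ⟨a, ha, hne⟩ := hκ
  have hκn : Nonempty κ := by
    by_contra hcon
    rw [not_nonempty_iff] at hcon
    apply hne
    have h1 : kp κ g = 1 := by
      ext i j
      rw [kp_apply, Fintype.prod_empty, Subsingleton.elim i j, Matrix.one_apply_eq]
    rw [h1, Matrix.one_mulVec]
  by_cases h : ∃ c : ℂ, kp κ g *ᵥ ca a = c • ca a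
  · obtain ⟨c, hc⟩ := h
    have hc1 : c ≠ 1 := by
      rintro rfl
      rw [one_smul] at hc
      exact hne hc
    have ha0 : ca a ≠ 0 := by
      intro h0
      apply hne
      rw [h0, Matrix.mulVec_zero]
    obtain ⟨b, hb⟩ : ∃ b, b = uni ℚ H.D.o κ := ⟨_, rfl⟩
    have hbB : b ∈ BB H κ := by rw [hb]; exact uni_BB κ
    have hbg : kp κ g *ᵥ ca b = ca b := by
      rw [hb]
      exact hg κ _ (hA.uniQ hN (by norm_num) κ)
    have hb0 : ca b ≠ 0 := by rw [hb]; exact uni_ne _ _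
    obtain ⟨s, hs1, hs2⟩ := exists_functional (x := ca (a + b)) (y := kp κ g *ᵥ ca (a + b)) (by
      intro μ hμ
      rw [ca_add, Matrix.mulVec_add, hc, hbg] at hμ
      -- `(1 - μ c) a = (μ - 1) b`
      have e1 : (1 - μ * c) • ca a = (μ - 1) • ca b := by
        have : ca a + ca b - (μ • (c • ca a + ca b)) = 0 := sub_eq_zero.2 hμ
        have e2 : (1 - μ * c) • ca a - (μ - 1) • ca b =
            ca a + ca b - (μ • (c • ca a + ca b)) := by
          rw [smul_add, smul_smul, sub_smul, sub_smul, one_smul, one_smul]; abel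
        rw [← sub_eq_zero, e2, this]
      have e2 := congrArg (fun v => kp κ g *ᵥ v) e1
      beta_reduce at e2
      rw [Matrix.mulVec_smul, Matrix.mulVec_smul, hc, hbg, ← e1, smul_smul, ← sub_eq_zero,
        ← sub_smul, smul_eq_zero, or_iff_left ha0] at e2
      have e3 : (1 - μ * c) * (c - 1) = 0 := by rw [← e2]; ring
      rcases mul_eq_zero.1 e3 with h5 | h5
      · rw [h5, zero_smul] at e1
        rcases smul_eq_zero.1 e1.symm with h6 | h6
        · have h7 : μ = 1 := sub_eq_zero.1 h6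
          rw [h7, one_mul] at h5
          exact hc1 (sub_eq_zero.1 h5).symm
        · exact hb0 h6
      · exact hc1 (sub_eq_zero.1 h5))
    refine ⟨κ, inferInstance, inferInstance, hκn, a + b, s, Submodule.add_mem _ ha hbB, hs1,
      fun g' hg' => ?_⟩
    rw [Finset.mem_singleton.1 hg']
    exact hs2
  · push Not at h
    obtain ⟨s, hs1, hs2⟩ := exists_functional (x := ca a) (y := kp κ g *ᵥ ca a) (by
      intro μ hμ
      by_cases hμ0 : μ = 0
      · rw [hμ0, zero_smul] at hμ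
        exact h 1 (by rw [hμ, Matrix.mulVec_zero, smul_zero])
      · exact h μ⁻¹ (by
          conv_rhs => rw [hμ]
          rw [smul_smul, inv_mul_cancel₀ hμ0, one_smul]))
    refine ⟨κ, inferInstance, inferInstance, hκn, a, s, ha, hs1, fun g' hg' => ?_⟩
    rw [Finset.mem_singleton.1 hg']
    exact hs2

/-- The contraction with a functional. -/
def ev {κ l : Type} (s : ((l → ι) → ℂ) →ₗ[ℂ] ℂ) :
    ((κ ⊕ l → ι) → ℂ) →ₗ[ℂ] ((κ → ι) → ℂ) where
  toFun x := fun i => s fun j => x (Sum.elim i j)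
  map_add' x y := by
    funext i
    exact map_add s _ _
  map_smul' c x := by
    funext i
    exact map_smul s c _

lemma ev_tens {κ l : Type} [Fintype κ] [DecidableEq κ] [Fintype l] [DecidableEq l]
    (s : ((l → ι) → ℂ) →ₗ[ℂ] ℂ) (a : (κ → ι) → ℂ) (b : (l → ι) → ℂ) :
    ev s (tens a b) = s b • a := by
  funext i
  have h1 : (fun j => tens a b (Sum.elim i j)) = a i • b := by
    funext j
    rw [tens_elim, Pi.smul_apply, smul_eq_mul]
  change s (fun j => tens a b (Sum.elim i j)) = _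
  rw [h1, map_smul, Pi.smul_apply, smul_eq_mul, smul_eq_mul, mul_comm]

lemma ca_tens {κ l : Type} (a : (κ → ι) → ℚ) (b : (l → ι) → ℚ) :
    ca (tens a b) = tens (ca a) (ca b) := by
  funext i
  simp [ca, tens]

lemma BB_tens {κ l : Type} [Fintype κ] [DecidableEq κ] [Fintype l] [DecidableEq l]
    {a : (κ → ι) → ℚ} {b : (l → ι) → ℚ} (ha : a ∈ BB H κ) (hb : b ∈ BB H l) :
    tens a b ∈ BB H (κ ⊕ l) := by
  intro t ht
  rw [ca_tens, kp_tens, ha t ht, hb t ht]

include hA hN in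
lemma sep_all (F : Finset (Matrix ι ι ℂ)) (hF : ∀ g ∈ F, g ∈ PS B ∧ g ∉ So H) : Sepd H F := by
  classical
  induction F using Finset.induction_on with
  | empty =>
    obtain ⟨s, hs1, -⟩ := exists_functional (x := ca (uni ℚ H.D.o Unit)) (y := 0) (fun c hc =>
      uni_ne _ _ (by rw [hc, smul_zero]))
    exact ⟨Unit, inferInstance, inferInstance, inferInstance, uni ℚ H.D.o Unit, s, uni_BB Unit,
      hs1, fun g hg => absurd hg (Finset.notMem_empty g)⟩
  | insert g F hg ih =>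
    obtain ⟨κ, _, _, _, T, s, hT, hs1, hs2⟩ := ih fun g' hg' => hF g' (Finset.mem_insert_of_mem hg')
    obtain ⟨hg1, hg2⟩ := hF g (Finset.mem_insert_self g F)
    obtain ⟨l, _, _, _, T', s', hT', hs1', hs2'⟩ := sep_one hA hN hg1 hg2
    refine ⟨κ ⊕ l, inferInstance, inferInstance, inferInstance, tens T T', s ∘ₗ ev s',
      BB_tens hT hT', ?_, fun g' hg' => ?_⟩
    · rw [ca_tens, LinearMap.comp_apply, ev_tens, hs1', one_smul, hs1]
    · rw [ca_tens, kp_tens, LinearMap.comp_apply, ev_tens, map_smul]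
      rcases Finset.mem_insert.1 hg' with h | h
      · rw [h, hs2' g (Finset.mem_singleton_self g), zero_smul]
      · rw [hs2 g' h, smul_zero]

end Sep

/-! ### The arrays fixed by the group -/

include hA hN in
/-- Complex arrays fixed by the group are combinations of elements of the family. -/
lemma mem_span_of_fixed {κ : Type} [Fintype κ] [DecidableEq κ] {x : (κ → ι) → ℂ}
    (hx : ∀ p ∈ PS B, kp κ p *ᵥ x = x) :
    x ∈ Submodule.span ℂ (ca '' (AQ B κ : Set ((κ → ι) → ℚ))) := by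
  have hfam := hA.isFam hN (by norm_num)
  have hxc : ∀ p ∈ PS B, kp κ p *ᵥ (fun i => conj (x i)) = fun i => conj (x i) := by
    intro p hp
    have h1 := kp_conj_mulVec (p.map conj) x
    have h2 : (p.map conj).map conj = p := by
      ext i j
      rw [Matrix.map_apply, Matrix.map_apply]
      exact Complex.conj_conj _
    rw [h2, hx _ (PS_conj hp)] at h1
    exact h1
  have key : ∀ h : (κ → ι) → ℝ, (∀ p ∈ PS B, kp κ p *ᵥ (fun j => ((h j : ℝ) : ℂ)) =
      fun j => ((h j : ℝ) : ℂ)) →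
      (fun j => ((h j : ℝ) : ℂ)) ∈ Submodule.span ℂ (ca '' (AQ B κ : Set ((κ → ι) → ℚ))) := by
    intro h hh
    have h1 : h ∈ AR B κ := by
      refine mem_of_fixed (κ := κ) hfam _ ?_ ?_
      · have h1 := hh _ (PS_l hA Complex.I_ne_zero)
        rw [← cR_C, kp_cR] at h1
        ext i
        have h2 := congrFun h1 i
        rw [Matrix.mulVec, dotProduct] at h2 ⊢
        have h3 : ((∑ j, kp κ H.D.C i j * h j : ℝ) : ℂ) = (((h i : ℝ)) : ℂ) := by
          push_cast
          exact h2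
        exact_mod_cast h3
      · intro g hg
        refine hh g fun l _ _ a ha => ?_
        have h4 := hg l _ (AR_of ha)
        simp only [Complex.ofReal_ratCast] at h4
        exact h4
    refine AR_ind (P := fun h : (κ → ι) → ℝ => (fun j => ((h j : ℝ) : ℂ)) ∈
      Submodule.span ℂ (ca '' (AQ B κ : Set ((κ → ι) → ℚ)))) ?_ ?_ h1
    · intro a ha c
      have h2 : (fun j => (((c • fun i => ((a i : ℚ) : ℝ)) j : ℝ) : ℂ)) = (c : ℂ) • ca a := by
        funext j
        simp [ca]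
      rw [h2]
      exact Submodule.smul_mem _ _ (Submodule.subset_span ⟨a, ha, rfl⟩)
    · intro a b ha hb
      have h2 : (fun j => (((a + b) j : ℝ) : ℂ)) =
          (fun j => ((a j : ℝ) : ℂ)) + fun j => ((b j : ℝ) : ℂ) := by
        funext j
        simp
      rw [h2]
      exact Submodule.add_mem _ ha hb
  have hre : (fun j => (((x j).re : ℝ) : ℂ)) = (1 / 2 : ℂ) • (x + fun i => conj (x i)) := by
    funext j
    rw [Pi.smul_apply, Pi.add_apply, smul_eq_mul, Complex.add_conj]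
    push_cast
    ring
  have him : (fun j => (((x j).im : ℝ) : ℂ)) = (1 / (2 * Complex.I) : ℂ) • (x - fun i => conj (x i)) := by
    funext j
    rw [Pi.smul_apply, Pi.sub_apply, smul_eq_mul, Complex.sub_conj]
    have := Complex.I_ne_zero
    field_simp
    push_cast
    ring
  have h1 := key (fun j => (x j).re) (fun p hp => by
    rw [hre, Matrix.mulVec_smul, Matrix.mulVec_add, hx p hp, hxc p hp])
  have h2 := key (fun j => (x j).im) (fun p hp => by
    rw [him, Matrix.mulVec_smul, Matrix.mulVec_sub, hx p hp, hxc p hp])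
  have h3 : x = (fun j => (((x j).re : ℝ) : ℂ)) + Complex.I • fun j => (((x j).im : ℝ) : ℂ) := by
    funext j
    rw [Pi.add_apply, Pi.smul_apply, smul_eq_mul, mul_comm]
    exact (Complex.re_add_im (x j)).symm
  rw [h3]
  exact Submodule.add_mem _ h1 (Submodule.smul_mem _ _ h2)

/-! ### Dimensions -/

/-- The dimension of the complex span of a space of rational arrays. -/
lemma finrank_ca {m : Type} [Fintype m] [DecidableEq m] (W : Submodule ℚ (m → ℚ)) :
    Module.finrank ℂ (Submodule.span ℂ ((fun (a : m → ℚ) (i : m) => (a i : ℂ)) ''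
      (W : Set (m → ℚ)))) = Module.finrank ℚ W := by
  let e : TensorProduct ℚ ℂ (m → ℚ) ≃ₗ[ℂ] (m → ℂ) := TensorProduct.piScalarRight ℚ ℂ ℂ m
  have he : ∀ (z : ℂ) (a : m → ℚ), e (z ⊗ₜ[ℚ] a) = z • fun i => (a i : ℂ) := by
    intro z a
    funext i
    rw [TensorProduct.piScalarRight_apply, TensorProduct.piScalarRightHom_tmul, Pi.smul_apply,
      smul_eq_mul, mul_comm]
    change a i • z = _
    rw [Rat.smul_def]
  have h1 : (W.baseChange ℂ).map e.toLinearMap =
      Submodule.span ℂ ((fun (a : m → ℚ) (i : m) => (a i : ℂ)) '' (W : Set (m → ℚ))) := by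
    rw [Submodule.baseChange_eq_span, Submodule.map_span]
    congr 1
    ext y
    constructor
    · rintro ⟨_, ⟨a, ha, rfl⟩, rfl⟩
      refine ⟨a, ha, ?_⟩
      have := he 1 a
      rw [one_smul] at this
      exact this.symm
    · rintro ⟨a, ha, rfl⟩
      refine ⟨_, ⟨a, ha, rfl⟩, ?_⟩
      have := he 1 a
      rw [one_smul] at this
      exact this
  rw [← h1, LinearEquiv.finrank_map_eq]
  exact Pool.Agent.Y129.finrank_baseChange ℂ W

/-- Recovering the array from the average. -/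
lemma ev_avg [Fintype (Cst H B)] {κ l : Type} [Fintype κ] [DecidableEq κ] [Fintype l]
    [DecidableEq l] {x : (κ → ι) → ℂ} (hx : ∀ g ∈ So H, kp κ g *ᵥ x = x) {y : (l → ι) → ℂ}
    (hy : ∀ g ∈ So H, kp l g *ᵥ y = y) {s : ((l → ι) → ℂ) →ₗ[ℂ] ℂ} (hs1 : s y = 1)
    (hs2 : ∀ q : Cst H B, q ≠ QuotientGroup.mk 1 → s (kp l (rp q) *ᵥ y) = 0) :
    ev s (avg H B (κ ⊕ l) (tens x y)) = x := by
  have h0 : ∀ q : Cst H B, ev s (kp (κ ⊕ l) (rp q) *ᵥ tens x y) =
      s (kp l (rp q) *ᵥ y) • (kp κ (rp q) *ᵥ x) := fun q => by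
    rw [kp_tens, ev_tens]
  rw [avg, map_sum, Finset.sum_congr rfl fun q _ => h0 q]
  rw [Finset.sum_eq_single (QuotientGroup.mk 1 : Cst H B)]
  · rw [hx _ rp_one, hy _ rp_one, hs1, one_smul]
  · intro q _ hq
    rw [hs2 q hq, zero_smul]
  · intro h
    exact absurd (Finset.mem_univ _) h

/-- The average as a linear map. -/
noncomputable def avgL (H : HData ι) (B : ∀ n : ℕ, Submodule ℚ ((Fin (n + 1) → ι) → ℚ))
    [Fintype (Cst H B)] (κ l : Type) [Fintype κ] [DecidableEq κ] [Fintype l] [DecidableEq l]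
    (y : (l → ι) → ℂ) : ((κ → ι) → ℂ) →ₗ[ℂ] ((κ ⊕ l → ι) → ℂ) where
  toFun x := avg H B (κ ⊕ l) (tens x y)
  map_add' a b := by
    have h1 : tens (a + b) y = tens a y + tens b y := by
      funext i
      simp only [tens, Pi.add_apply]
      ring
    rw [h1, avg, avg, avg, ← Finset.sum_add_distrib]
    exact Finset.sum_congr rfl fun q _ => Matrix.mulVec_add _ _ _
  map_smul' c a := by
    have h1 : tens (c • a) y = c • tens a y := by
      funext i
      simp only [tens, Pi.smul_apply, smul_eq_mul]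
      ring
    rw [h1, avg, avg, RingHom.id_apply, Finset.smul_sum]
    exact Finset.sum_congr rfl fun q _ => Matrix.mulVec_smul _ _ _

lemma exists_F [Fintype (Cst H B)] : ∃ F : Finset (Matrix ι ι ℂ),
    (∀ g ∈ F, g ∈ PS B ∧ g ∉ So H) ∧
      ∀ q : Cst H B, q ≠ QuotientGroup.mk 1 → rp q ∈ F := by
  classical
  refine ⟨(Finset.univ.filter fun q : Cst H B => q ≠ QuotientGroup.mk 1).image rp, ?_, ?_⟩
  · intro g hg
    obtain ⟨q, hq, rfl⟩ := Finset.mem_image.1 hg
    exact ⟨rp_mem q, rp_ne (Finset.mem_filter.1 hq).2⟩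
  · intro q hq
    exact Finset.mem_image.2 ⟨q, Finset.mem_filter.2 ⟨Finset.mem_univ _, hq⟩, rfl⟩

lemma fix_span {κ : Type} [Fintype κ] [DecidableEq κ] {x : (κ → ι) → ℂ}
    (hx : x ∈ Submodule.span ℂ (ca '' (BB H κ : Set ((κ → ι) → ℚ)))) {g : Matrix ι ι ℂ}
    (hg : g ∈ So H) : kp κ g *ᵥ x = x := by
  induction hx using Submodule.span_induction with
  | mem x hx => obtain ⟨a, ha, rfl⟩ := hx; exact hg κ a ha
  | zero => rw [Matrix.mulVec_zero]
  | add a b _ _ ha hb => rw [Matrix.mulVec_add, ha, hb]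
  | smul c a _ ha => rw [Matrix.mulVec_smul, ha]

include hA hN in
/-- **The number of the Hodge classes.** -/
theorem finrank_BB_le (hR : NdC H) : ∃ (l : Type) (_ : Fintype l) (_ : DecidableEq l)
    (_ : Nonempty l), ∀ (κ : Type) [Fintype κ] [DecidableEq κ],
      Module.finrank ℚ (BB H κ) ≤ Module.finrank ℚ (AQ B (κ ⊕ l)) := by
  have := finite_Cst hA hN hR
  have : Fintype (Cst H B) := Fintype.ofFinite _
  obtain ⟨F, hF1, hF2⟩ := exists_F (H := H) (B := B)
  obtain ⟨l, _, _, _, T, s, hT, hs1, hs2⟩ := sep_all hA hN F hF1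
  refine ⟨l, inferInstance, inferInstance, inferInstance, fun κ _ _ => ?_⟩
  have e1 := finrank_ca (BB H κ)
  have e2 := finrank_ca (AQ B (κ ⊕ l))
  rw [← e1, ← e2]
  have hT' : ∀ g ∈ So H, kp l g *ᵥ ca T = ca T := fun g hg => hg l T hT
  have hmem : ∀ x ∈ Submodule.span ℂ (ca '' (BB H κ : Set ((κ → ι) → ℚ))),
      avgL H B κ l (ca T) x ∈
        Submodule.span ℂ (ca '' (AQ B (κ ⊕ l) : Set ((κ ⊕ l → ι) → ℚ))) := by
    intro x hx
    refine mem_span_of_fixed hA hN fun p hp => ?_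
    obtain ⟨p', -, hpp⟩ := Fixes.inv (PS_fixes2 hA hN hp)
    refine avg_inv (fun g hg => ?_) hp hpp
    rw [kp_tens, fix_span hx hg, hT' g hg]
  have hrec : ∀ x ∈ Submodule.span ℂ (ca '' (BB H κ : Set ((κ → ι) → ℚ))),
      ev s (avgL H B κ l (ca T) x) = x := fun x hx =>
    ev_avg (fun g hg => fix_span hx hg) hT' hs1 fun q hq => hs2 _ (hF2 q hq)
  refine LinearMap.finrank_le_finrank_of_injective
    (f := ((avgL H B κ l (ca T)) ∘ₗ (Submodule.span ℂ (ca ''
      (BB H κ : Set ((κ → ι) → ℚ)))).subtype).codRestrict _ fun x => hmem x x.2) fun a b hab => ?_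
  have h1 : avgL H B κ l (ca T) a = avgL H B κ l (ca T) b := congrArg Subtype.val hab
  apply Subtype.ext
  rw [← hrec a a.2, ← hrec b b.2, h1]

include hA hN in
/-- The number of the Hodge classes, for ordered index sets. -/
theorem finrank_BB_le' (hR : NdC H) : ∃ M : ℕ, ∀ n : ℕ,
    Module.finrank ℚ (BB H (Fin (n + 1))) ≤ Module.finrank ℚ (B (n + M)) := by
  obtain ⟨l, _, _, _, h⟩ := finrank_BB_le hA hN hR
  refine ⟨Fintype.card l, fun n => (h (Fin (n + 1))).trans ?_⟩
  let e : Fin (n + 1) ⊕ l ≃ Fin (n + Fintype.card l + 1) :=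
    (Equiv.sumCongr (Equiv.refl _) (Fintype.equivFin l)).trans
      (finSumFinEquiv.trans (finCongr (by omega)))
  let f : AQ B (Fin (n + 1) ⊕ l) →ₗ[ℚ] B (n + Fintype.card l) :=
    { toFun := fun a => ⟨rei e a.1, a.2 _ e⟩
      map_add' := fun _ _ => rfl
      map_smul' := fun _ _ => rfl }
  refine LinearMap.finrank_le_finrank_of_injective (f := f) fun a b hab => ?_
  apply Subtype.ext
  have h1 : rei e a.1 = rei e b.1 := congrArg Subtype.val hab
  have h2 := congrArg (rei e.symm) h1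
  rw [rei_rei, rei_rei, Equiv.self_trans_symm] at h2
  exact h2

end Pool.Agent.K9h40.FP4
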